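import Pool.Agent.Work.MP_3f6cab_lc.F22.Lab

/-!
# No three elements of the same type
-/

set_option autoImplicit false

namespace Pool.Agent.Work.MP_3f6cab_lc.F22

namespace JBlocks

/-! ### Walks -/

theorem act_append (Λ : Lab) (w w' : List (Fin 6)) (f : Λ.L) :
    Λ.act (w ++ w') f = Λ.act w' (Λ.act w f) := by
  induction w generalizing f with
  | nil => rfl
  | cons i w ih => exact ih _

theorem act_reverse (Λ : Lab) (w : List (Fin 6)) (f : Λ.L) :
    Λ.act w.reverse (Λ.act w f) = f := by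
  induction w generalizing f with
  | nil => rfl
  | cons i w ih =>
    rw [List.reverse_cons, act_append]
    show Λ.act [i] (Λ.act w.reverse (Λ.act w (Λ.s i f))) = f
    rw [ih]
    exact Λ.ss i f

/-! ### The hypotheses -/

section main

variable {Λ : Lab} (V : Volt Λ) {C T : Type} (t : C → C → T) (φ : C → Λ.L × ZMod 3)
  (adj : C → C → Prop)

/-- The hypotheses of `S_blocks`. -/
structure Hyp : Prop where
  inj : Function.Injective φ
  heq : ∀ x y x' y', t x y = t x' y' → (x = y ↔ x' = y')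
  hcv : ∀ x y x' y', t x y = t x' y' → t y x = t y' x'
  hadj : ∀ x y x' y', t x y = t x' y' → (adj x y ↔ adj x' y')
  hlab : ∀ x y x' y', t x y = t x' y' → (φ y).1 = (φ y').1
  step : ∀ x y x' y', t x y = t x' y' → ∀ z, ∃ z', t x z = t x' z' ∧ t z y = t z' y'
  nb : ∀ x m, ∃ y, (φ y).1 = Λ.s m (φ x).1 ∧
      ((Λ.side (φ x).1 = false ∧ adj x y) ∨ (Λ.side (φ x).1 = true ∧ adj y x))
  col : ∀ x y m, Λ.side (φ x).1 = false → (φ y).1 = Λ.s m (φ x).1 → adj x y →
      (φ y).2 ≠ V.m (φ x).1 m (φ x).2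

/-- Adjacency seen from `x`. -/
def E (x y : C) : Prop :=
  (Λ.side (φ x).1 = false ∧ adj x y) ∨ (Λ.side (φ x).1 = true ∧ adj y x)

variable {V t φ adj}

theorem Hyp.left (H : Hyp V t φ adj) {x y x' y' : C} (h : t x y = t x' y') :
    t x x = t x' x' := by
  obtain ⟨z', h1, h2⟩ := H.step _ _ _ _ h x
  have : x' = z' := (H.heq _ _ _ _ h1).1 rfl
  rw [h1, ← this]

theorem Hyp.right (H : Hyp V t φ adj) {x y x' y' : C} (h : t x y = t x' y') :
    t y y = t y' y' := H.left (H.hcv _ _ _ _ h)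

theorem Hyp.lab1 (H : Hyp V t φ adj) {x y x' y' : C} (h : t x y = t x' y') :
    (φ x).1 = (φ x').1 := H.hlab _ _ _ _ (H.hcv _ _ _ _ h)

theorem Hyp.E_iff (H : Hyp V t φ adj) {x y x' y' : C} (h : t x y = t x' y') :
    E φ adj x y ↔ E φ adj x' y' := by
  unfold E
  rw [H.lab1 h, H.hadj _ _ _ _ h, H.hadj _ _ _ _ (H.hcv _ _ _ _ h)]

theorem Hyp.E_col (H : Hyp V t φ adj) {x y : C} {m : Fin 6} (h : (φ y).1 = Λ.s m (φ x).1)
    (hE : E φ adj x y) : (φ y).2 ≠ V.m (φ x).1 m (φ x).2 := by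
  rcases hE with ⟨h1, h2⟩ | ⟨h1, h2⟩
  · exact H.col x y m h1 h h2
  · intro h3
    have h4 : Λ.side (φ y).1 = false := by rw [h, Λ.side_s, h1]; rfl
    have h5 : (φ x).1 = Λ.s m (φ y).1 := by rw [h, Λ.ss]
    refine H.col y x m h4 h5 h2 ?_
    rw [h, h3, V.m_m]

variable (t φ)

/-- All colours occur at the label `f`, with the same unary type. -/
def FullC (f : Λ.L) : Prop := ∃ u : T, ∀ c : ZMod 3, ∃ e : C, φ e = (f, c) ∧ t e e = u

/-- The types determine an affine bijection between the colours of `f` and of `f'`. -/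
def Link (f f' : Λ.L) (ε : ZMod 3) : Prop := FullC t φ f ∧ FullC t φ f' ∧ ∃ δ : ZMod 3,
  ∀ x y x' y', t x y = t x' y' → (φ x).1 = f → (φ y).1 = f' →
    (φ y).2 = ε * (φ x).2 + δ → (φ y').2 = ε * (φ x').2 + δ

variable {t φ}

theorem Link.trans (H : Hyp V t φ adj) {f f' f'' : Λ.L} {ε ε' : ZMod 3} (h : Link t φ f f' ε)
    (h' : Link t φ f' f'' ε') : Link t φ f f'' (ε' * ε) := by
  obtain ⟨F1, F2, δ, h⟩ := h
  obtain ⟨-, F3, δ', h'⟩ := h'
  refine ⟨F1, F3, ε' * δ + δ', ?_⟩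
  intro x z x' z' hxz hx hz hc
  obtain ⟨u, hu⟩ := F2
  obtain ⟨y, hy, -⟩ := hu (ε * (φ x).2 + δ)
  obtain ⟨y', h1, h2⟩ := H.step _ _ _ _ hxz y
  have h3 := h x y x' y' h1 hx (by rw [hy]) (by rw [hy])
  have h4 := h' y z y' z' h2 (by rw [hy]) hz (by rw [hy, hc]; ring)
  rw [h4, h3]
  ring

theorem not_link (f : Λ.L) : ¬ Link t φ f f (-1) := by
  rintro ⟨⟨u, hu⟩, -, δ, h⟩
  obtain ⟨x, hx, hxu⟩ := hu (2 * δ)
  obtain ⟨x', hx', hxu'⟩ := hu (2 * δ + 1)
  have h3 : ∀ δ : ZMod 3, 2 * δ = -1 * (2 * δ) + δ := by decide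
  have h4 : ∀ δ : ZMod 3, 2 * δ + 1 ≠ -1 * (2 * δ + 1) + δ := by decide
  have h1 := h x x x' x' (hxu.trans hxu'.symm) (by rw [hx]) (by rw [hx]) (by
    rw [hx]
    exact h3 δ)
  rw [hx'] at h1
  exact h4 δ h1

/-- The inverse transport. -/
theorem m_surj (V : Volt Λ) (f : Λ.L) (m : Fin 6) (c : ZMod 3) :
    V.m f m (V.m (Λ.s m f) m c) = c := by
  have h := V.m_m (Λ.s m f) m c
  rwa [Λ.ss] at h

theorem full_step (hc : S_core) (H : Hyp V t φ adj) {f : Λ.L} (hf : FullC t φ f) (m : Fin 6) :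
    Link t φ f (Λ.s m f) (V.e f m) := by
  have hf0 := hf
  obtain ⟨u, hu⟩ := hf
  choose e he1 he2 using hu
  have hel : ∀ x, (φ x).1 = f → x = e (φ x).2 := by
    intro x hx
    apply H.inj
    rw [he1, ← hx]
  -- the neighbour
  obtain ⟨y1, hy1, hE1⟩ := H.nb (e 0) m
  have hy1' : (φ y1).1 = Λ.s m f := by rw [hy1, he1]
  have hE1 : E φ adj (e 0) y1 := hE1
  set inv : ZMod 3 → ZMod 3 := fun c => V.m (Λ.s m f) m c with hinv
  have hinv1 : ∀ c, V.m f m (inv c) = c := m_surj V f m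
  have hphi : ∀ y, (φ y).1 = Λ.s m f → φ y = (Λ.s m f, V.m f m (inv (φ y).2)) := by
    intro y hy
    rw [hinv1, ← hy]
  set B : ZMod 3 → Prop := fun y0 => ∃ y, φ y = (Λ.s m f, V.m f m y0) ∧ t y y = t y1 y1 with hB
  set a : ZMod 3 → ZMod 3 → Prop := fun x y0 => ∃ y, φ y = (Λ.s m f, V.m f m y0) ∧
    E φ adj (e x) y with ha
  have hBi : ∀ y, (φ y).1 = Λ.s m f → t y y = t y1 y1 → B (inv (φ y).2) :=
    fun y hy hty => ⟨y, hphi y hy, hty⟩
  have hai : ∀ x y, (φ x).1 = f → (φ y).1 = Λ.s m f → E φ adj x y → a (φ x).2 (inv (φ y).2) := by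
    intro x y hx hy hE
    refine ⟨y, hphi y hy, ?_⟩
    rw [← hel x hx]
    exact hE
  have hinvne : ∀ y y', (φ y).1 = Λ.s m f → (φ y').1 = Λ.s m f → y ≠ y' →
      inv (φ y).2 ≠ inv (φ y').2 := by
    intro y y' hy hy' hne h
    exact hne (H.inj (by rw [hphi y hy, hphi y' hy', h]))
  have hYne : ∀ {y0 y0' : ZMod 3} {y y' : C}, y0 ≠ y0' → φ y = (Λ.s m f, V.m f m y0) →
      φ y' = (Λ.s m f, V.m f m y0') → y ≠ y' := by
    intro y0 y0' y y' hne hy hy' h
    subst h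
    apply hne
    apply V.m_inj f m
    have := hy.symm.trans hy'
    exact (Prod.mk.inj this).2
  have huniq : ∀ {y0 : ZMod 3} {y y' : C}, φ y = (Λ.s m f, V.m f m y0) →
      φ y' = (Λ.s m f, V.m f m y0) → y = y' := by
    intro y0 y y' hy hy'
    exact H.inj (hy.trans hy'.symm)
  obtain ⟨c1, c2⟩ := hc a B
    (by
      rintro x y ⟨Y, hY, hE⟩ hxy
      subst hxy
      have h := H.E_col (m := m) (x := e y) (y := Y) (by rw [hY, he1]) hE
      rw [hY, he1] at h
      exact h rfl)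
    ⟨_, hBi y1 hy1' rfl⟩
    (by
      intro x
      obtain ⟨z', h1, h2⟩ := H.step (e 0) (e 0) (e x) (e x) ((he2 0).trans (he2 x).symm) y1
      have hz : (φ z').1 = Λ.s m f := by rw [← H.hlab _ _ _ _ h1, hy1']
      refine ⟨_, hBi z' hz (H.right h1).symm, z', hphi z' hz, ?_⟩
      exact (H.E_iff h1).1 hE1)
    (by
      rintro x x' y y' ⟨Y, hY, hYt⟩ ⟨Y', hY', hYt'⟩ hne ⟨Y2, hY2, hE⟩ ⟨Y2', hY2', hE'⟩
      obtain rfl := huniq hY hY2
      obtain rfl := huniq hY' hY2'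
      obtain ⟨Z, h1, h2⟩ := H.step (e x) (e x) (e x') (e x') ((he2 x).trans (he2 x').symm) Y
      obtain ⟨Z', h3, h4⟩ := H.step _ _ _ _ h1 Y'
      have hZ : (φ Z).1 = Λ.s m f := by rw [← H.hlab _ _ _ _ h1, hY]
      have hZ' : (φ Z').1 = Λ.s m f := by rw [← H.hlab _ _ _ _ h3, hY']
      have hne2 : Z ≠ Z' := fun h => (hYne hne hY hY').symm ((H.heq _ _ _ _ h4).2 h.symm)
      refine ⟨_, _, hBi Z hZ ((H.right h1).symm.trans hYt), hBi Z' hZ'
        ((H.right h3).symm.trans hYt'), hinvne Z Z' hZ hZ' hne2, ⟨Z, hphi Z hZ, ?_⟩,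
        ⟨Z', hphi Z' hZ', ?_⟩⟩
      · exact (H.E_iff h1).1 hE
      · exact (H.E_iff h3).1 hE')
    (by
      rintro y y' x ⟨Y, hY, hYt⟩ ⟨Y', hY', hYt'⟩ ⟨Y2, hY2, hE⟩
      obtain rfl := huniq hY hY2
      obtain ⟨Z, h1, h2⟩ := H.step Y Y Y' Y' (hYt.trans hYt'.symm) (e x)
      have hZ : (φ Z).1 = f := by rw [← H.hlab _ _ _ _ h1, he1]
      refine ⟨(φ Z).2, Y', hY', ?_⟩
      rw [← hel Z hZ]
      exact (H.E_iff h2).1 hE)
    (by
      rintro y y' x x' ⟨Y, hY, hYt⟩ ⟨Y', hY', hYt'⟩ hne ⟨Y2, hY2, hE⟩ ⟨Y3, hY3, hE'⟩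
      obtain rfl := huniq hY hY2
      obtain rfl := huniq hY hY3
      obtain ⟨Z, h1, h2⟩ := H.step Y Y Y' Y' (hYt.trans hYt'.symm) (e x)
      obtain ⟨Z', h3, h4⟩ := H.step _ _ _ _ h1 (e x')
      have hZ : (φ Z).1 = f := by rw [← H.hlab _ _ _ _ h1, he1]
      have hZ' : (φ Z').1 = f := by rw [← H.hlab _ _ _ _ h3, he1]
      have hne2 : Z ≠ Z' := by
        intro h
        have h5 : e x' = e x := (H.heq _ _ _ _ h4).2 h.symm
        apply hne
        have h6 := congrArg φ h5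
        rw [he1, he1] at h6
        exact (Prod.mk.inj h6).2.symm
      have hne3 : (φ Z).2 ≠ (φ Z').2 := by
        intro h
        apply hne2
        rw [hel Z hZ, hel Z' hZ', h]
      refine ⟨(φ Z).2, (φ Z').2, hne3, ⟨Y', hY', ?_⟩, ⟨Y', hY', ?_⟩⟩
      · rw [← hel Z hZ]
        exact (H.E_iff h2).1 hE
      · rw [← hel Z' hZ']
        have h7 := H.hcv _ _ _ _ h3
        exact (H.E_iff h7).1 hE')
  refine ⟨hf0, ⟨t y1 y1, fun c => ?_⟩, ?_⟩
  · obtain ⟨y, hy, hyt⟩ := c1 (inv c)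
    exact ⟨y, by rw [hy, hinv1], hyt⟩
  have hEa : ∀ x y, (φ x).1 = f → (φ y).1 = Λ.s m f →
      (E φ adj x y ↔ a (φ x).2 (inv (φ y).2)) := by
    intro x y hx hy
    refine ⟨hai x y hx hy, ?_⟩
    rintro ⟨Y, hY, hE⟩
    rw [← hel x hx] at hE
    obtain rfl : Y = y := H.inj (hY.trans (hphi y hy).symm)
    exact hE
  have hlab' : ∀ {x y x' y' : C}, t x y = t x' y' → (φ x).1 = f → (φ y).1 = Λ.s m f →
      (φ x').1 = f ∧ (φ y').1 = Λ.s m f := by
    intro x y x' y' h hx hy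
    exact ⟨by rw [← H.lab1 h, hx], by rw [← H.hlab _ _ _ _ h, hy]⟩
  have hshift : ∀ k : ZMod 3, (∀ x y, a x y ↔ y = x + k) → ∃ δ : ZMod 3,
      ∀ x y x' y', t x y = t x' y' → (φ x).1 = f → (φ y).1 = Λ.s m f →
        (φ y).2 = V.e f m * (φ x).2 + δ → (φ y').2 = V.e f m * (φ x').2 + δ := by
    intro k hk
    have key : ∀ x y, (φ x).1 = f → (φ y).1 = Λ.s m f →
        (E φ adj x y ↔ (φ y).2 = V.e f m * (φ x).2 + (V.e f m * k + V.d f m)) := by
      intro x y hx hy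
      rw [hEa x y hx hy, hk]
      constructor
      · intro h
        have h2 := hinv1 (φ y).2
        rw [h] at h2
        rw [← h2]
        unfold Volt.m
        ring
      · intro h
        apply V.m_inj f m
        rw [hinv1, h]
        unfold Volt.m
        ring
    refine ⟨V.e f m * k + V.d f m, ?_⟩
    intro x y x' y' h hx hy hcol
    obtain ⟨hx', hy'⟩ := hlab' h hx hy
    exact (key x' y' hx' hy').1 ((H.E_iff h).1 ((key x y hx hy).2 hcol))
  rcases c2 with c2 | c2 | c2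
  · have key : ∀ x y, (φ x).1 = f → (φ y).1 = Λ.s m f →
        (¬ E φ adj x y ↔ (φ y).2 = V.e f m * (φ x).2 + V.d f m) := by
      intro x y hx hy
      rw [hEa x y hx hy, c2, not_not]
      constructor
      · intro h
        have h2 := hinv1 (φ y).2
        rw [h] at h2
        rw [← h2]
        rfl
      · intro h
        apply V.m_inj f m
        rw [hinv1, h]
        rfl
    refine ⟨V.d f m, ?_⟩
    intro x y x' y' h hx hy hcol
    obtain ⟨hx', hy'⟩ := hlab' h hx hy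
    exact (key x' y' hx' hy').1 (fun hE => (key x y hx hy).2 hcol ((H.E_iff h).2 hE))
  · exact hshift 1 c2
  · exact hshift 2 c2

end main

end JBlocks

open JBlocks in
theorem prfBlocks (hc : S_core) : S_blocks := by
  intro Λ hconn V hsign C T t φ adj hinj h1 h2 h3 h4 h5 h6 h7
  have H : Hyp V t φ adj := ⟨hinj, h1, h2, h3, h4, h5, h6, h7⟩
  intro x y z hxy hxz
  by_contra hne
  push Not at hne
  obtain ⟨n1, n2, n3⟩ := hne
  -- full label
  have hlx : (φ x).1 = (φ y).1 := H.lab1 hxy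
  have hlz : (φ x).1 = (φ z).1 := H.lab1 hxz
  have m1 : (φ x).2 ≠ (φ y).2 := fun h => n1 (hinj (Prod.ext hlx h))
  have m2 : (φ x).2 ≠ (φ z).2 := fun h => n2 (hinj (Prod.ext hlz h))
  have m3 : (φ y).2 ≠ (φ z).2 := fun h => n3 (hinj (Prod.ext (hlx.symm.trans hlz) h))
  have hdec : ∀ a b c d : ZMod 3, a ≠ b → a ≠ c → b ≠ c → d = a ∨ d = b ∨ d = c := by decide
  have hfull : FullC t φ (φ x).1 := by
    refine ⟨t x x, fun c => ?_⟩
    rcases hdec _ _ _ c m1 m2 m3 with h | h | h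
    · exact ⟨x, Prod.ext rfl h.symm, rfl⟩
    · exact ⟨y, Prod.ext hlx.symm h.symm, hxy.symm⟩
    · exact ⟨z, Prod.ext hlz.symm h.symm, hxz.symm⟩
  have hwalk : ∀ (w : List (Fin 6)) (f : Λ.L), FullC t φ f → FullC t φ (Λ.act w f) := by
    intro w
    induction w with
    | nil => exact fun f h => h
    | cons i w ih => exact fun f h => ih _ (full_step hc H h i).2.1
  have hbase : FullC t φ Λ.base := by
    obtain ⟨w, hw⟩ := hconn (φ x).1
    have h := hwalk w.reverse _ hfull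
    rw [← hw, act_reverse] at h
    exact h
  have hfin := Λ.fin
  set g : Λ.L → Λ.L := fun f => Λ.s 1 (Λ.s 0 f) with hg
  have hginj : Function.Injective g := by
    intro a b hab
    have h := congrArg (fun f => Λ.s 0 (Λ.s 1 f)) hab
    simpa [hg, Λ.ss] using h
  have hex : ∃ n, 0 < n ∧ g^[n] Λ.base = Λ.base := by
    obtain ⟨n, hn, h⟩ := Function.mem_periodicPts.1 (hginj.mem_periodicPts Λ.base)
    exact ⟨n, hn, h⟩
  classical
  have hn0 := Nat.find_spec hex
  have hmin := fun k => Nat.find_min hex (m := k)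
  set n0 := Nat.find hex with hn0def
  have hside : ∀ n, Λ.side (g^[n] Λ.base) = false := by
    intro n
    induction n with
    | zero => exact Λ.side_base
    | succ n ih =>
      rw [Function.iterate_succ_apply']
      show Λ.side (Λ.s 1 (Λ.s 0 _)) = false
      rw [Λ.side_s, Λ.side_s, ih]
      rfl
  have hsec : ∀ n, V.e (Λ.s 0 (g^[n] Λ.base)) 1 = 1 := by
    intro n
    rw [← V.es]
    have h : Λ.side (Λ.s 1 (Λ.s 0 (g^[n] Λ.base))) = false := by
      have := hside (n + 1)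
      rwa [Function.iterate_succ_apply'] at this
    exact (hsign _ 1 h).2 (fun h => by
      have := h.2
      revert this
      decide)
  have hlinkstep : ∀ n, FullC t φ (g^[n] Λ.base) →
      Link t φ (g^[n] Λ.base) (g^[n + 1] Λ.base) (V.e (g^[n] Λ.base) 0) := by
    intro n hn
    have l1 := full_step hc H hn 0
    have l2 := full_step hc H l1.2.1 1
    have l3 := l1.trans H l2
    rw [hsec, one_mul] at l3
    rw [Function.iterate_succ_apply']
    exact l3
  have hlink : ∀ n, n + 1 ≤ n0 → Link t φ Λ.base (g^[n + 1] Λ.base) (-1) := by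
    intro n
    induction n with
    | zero =>
      intro _
      have h := hlinkstep 0 hbase
      have hs : V.e (g^[0] Λ.base) 0 = -1 := (hsign Λ.base 0 Λ.side_base).1 ⟨rfl, rfl⟩
      rw [hs] at h
      exact h
    | succ n ih =>
      intro hle
      have h1 := ih (by omega)
      have h2 := hlinkstep (n + 1) h1.2.1
      have hne : g^[n + 1] Λ.base ≠ Λ.base := fun h =>
        hmin (n + 1) (by omega) ⟨by omega, h⟩
      have hs : V.e (g^[n + 1] Λ.base) 0 = 1 := (hsign _ 0 (hside _)).2 (fun h => hne h.1)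
      rw [hs] at h2
      have h3 := h1.trans H h2
      rwa [one_mul] at h3
  obtain ⟨k, hk⟩ : ∃ k, n0 = k + 1 := ⟨n0 - 1, by omega⟩
  have h := hlink k (by omega)
  rw [← hk, hn0.2] at h
  exact not_link _ h

end Pool.Agent.Work.MP_3f6cab_lc.F22
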