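import Pool.Agent.Work.MP_3f6cab_lc.F22.Lab

/-!
# Pieces whose pair types determine each other

Proof of `S_cat`.
-/

set_option autoImplicit false

namespace Pool.Agent.Work.MP_3f6cab_lc.F22

namespace JCat

variable {T : Type} {C : Bool → Type} (t : ∀ b, C b → C b → T)

/-- Equality is determined by the pair type. -/
def HE : Prop := ∀ b b' (x y : C b) (x' y' : C b'), t b x y = t b' x' y' → (x = y ↔ x' = y')

/-- The converse pair type is determined by the pair type. -/
def HC : Prop := ∀ b b' (x y : C b) (x' y' : C b'), t b x y = t b' x' y' →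
  t b y x = t b' y' x'

/-- The back and forth step. -/
def HS : Prop := ∀ b b' (x y : C b) (x' y' : C b'), t b x y = t b' x' y' →
  ∀ z, ∃ z', t b x z = t b' x' z' ∧ t b z y = t b' z' y'

variable {t}

theorem left (hE : HE t) (hS : HS t) {b b' : Bool} {x y : C b} {x' y' : C b'}
    (h : t b x y = t b' x' y') : t b x x = t b' x' x' := by
  obtain ⟨z', h1, -⟩ := hS b b' x y x' y' h x
  have h2 : x' = z' := (hE b b' x x x' z' h1).1 rfl
  rw [h1, ← h2]

theorem right (hE : HE t) (hS : HS t) {b b' : Bool} {x y : C b} {x' y' : C b'}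
    (h : t b x y = t b' x' y') : t b y y = t b' y' y' := by
  obtain ⟨z', -, h1⟩ := hS b b' x y x' y' h y
  have h2 : z' = y' := (hE b b' y y z' y' h1).1 rfl
  rw [h1, h2]

variable (t)

/-- The second element is determined by the first one and the pair type. -/
def F (b : Bool) (x y : C b) : Prop := ∀ y2, t b x y2 = t b x y → y2 = y

variable {t}

theorem F_of (hE : HE t) (hS : HS t) {b b' : Bool} {x y : C b} {x' y' : C b'}
    (h : t b x y = t b' x' y') (hF : F t b x y) : F t b' x' y' := by
  intro y2 h2
  by_contra hne
  obtain ⟨z, h3, h4⟩ := hS b' b x' y' x y h.symm y2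
  have h5 : z = y := hF z (by rw [← h3, h2, h])
  exact hne ((hE b' b y2 y' z y h4).2 h5)

theorem F_refl (hE : HE t) (b : Bool) (x : C b) : F t b x x := by
  intro y2 h
  exact ((hE b b x y2 x x h).2 rfl).symm

theorem F_trans (hS : HS t) {b : Bool} {x y z : C b} (h1 : F t b x y) (h2 : F t b y z) :
    F t b x z := by
  intro z2 h
  obtain ⟨y2, h3, h4⟩ := hS b b x z x z2 h.symm y
  have h5 : y2 = y := h1 y2 h3.symm
  rw [h5] at h4
  exact h2 z2 h4.symm

/-- Mutual determination is an equivalence relation. -/
def std (hE : HE t) (hS : HS t) (b : Bool) : Setoid (C b) where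
  r x y := F t b x y ∧ F t b y x
  iseqv :=
    { refl := fun x => ⟨F_refl hE b x, F_refl hE b x⟩
      symm := fun h => ⟨h.2, h.1⟩
      trans := fun h h' => ⟨F_trans hS h.1 h'.1, F_trans hS h'.2 h.2⟩ }

end JCat

open JCat in
theorem prfCat : S_cat := by
  intro T C t hE hC hS hcov h2
  have hE' : HE t := hE
  have hS' : HS t := hS
  -- representatives
  let s : Setoid (C true) := std hE' hS' true
  let r : C true → C true := fun x => (Quotient.mk s x).out
  have hr : ∀ x, F t true (r x) x := fun x => (Quotient.mk_out (s := s) x).1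
  choose p hp using hcov
  have hφ : ∀ x, ∃ x', t true (r x) x = t false (p (r x)) x' := by
    intro x
    obtain ⟨x', h, -⟩ := hS true false (r x) (r x) (p (r x)) (p (r x)) (hp (r x)) x
    exact ⟨x', h⟩
  choose φ hφ using hφ
  have huu : ∀ x, t true x x = t false (φ x) (φ x) := fun x => right hE' hS' (hφ x)
  -- the case where the second element is not determined
  have key : ∀ x y, ¬ F t true x y → t true x y = t false (φ x) (φ y) := by
    intro x y hn
    obtain ⟨y', h1, -⟩ := hS true false x x (φ x) (φ x) (huu x) y
    by_cases hy : y' = φ y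
    · rw [h1, hy]
    · have hn' : ¬ F t false (φ x) y' := fun hF => hn (F_of hE' hS' h1.symm hF)
      unfold F at hn'
      push Not at hn'
      obtain ⟨y'', h3, h4⟩ := hn'
      have e1 : t false y' y' = t false (φ y) (φ y) := by
        rw [← huu y]; exact (right hE' hS' h1).symm
      have e2 : t false y' y' = t false y'' y'' := (right hE' hS' h3).symm
      rcases h2 y' (φ y) y'' e1 e2 with h | h | h
      · exact absurd h hy
      · exact absurd h.symm h4
      · rw [h1, h, h3]
  refine ⟨φ, fun x y => ?_⟩
  by_cases h1 : F t true x y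
  · by_cases h2' : F t true y x
    · have hrr : r x = r y := by
        have : Quotient.mk s x = Quotient.mk s y := Quotient.sound (s := s) ⟨h1, h2'⟩
        show (Quotient.mk s x).out = (Quotient.mk s y).out
        rw [this]
      obtain ⟨y', h3, h4⟩ := hS true false (r x) x (p (r x)) (φ x) (hφ x) y
      have h5 : F t false (p (r y)) (φ y) := F_of hE' hS' (hφ y) (hr y)
      have h6 : y' = φ y := by
        apply h5
        rw [← hφ y, ← hrr, h3]
      rw [h6] at h4
      exact hC true false y x (φ y) (φ x) h4
    · exact hC true false y x (φ y) (φ x) (key y x h2')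
  · exact key x y h1

end Pool.Agent.Work.MP_3f6cab_lc.F22
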