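import Pool.Agent.Work.MP_3f6cab_lc.Proof

/-!
# Labels, voltages and the structures of the lower bound (finite structures)
-/

set_option autoImplicit false

namespace Pool.Agent.Work.MP_3f6cab_lc.F22

/-- Labels: a finite bipartite graph given by six involutions `s i`. -/
structure Lab : Type 1 where
  L : Type
  fin : Finite L
  side : L → Bool
  s : Fin 6 → L → L
  ss : ∀ i f, s i (s i f) = f
  side_s : ∀ i f, side (s i f) = !side f
  base : L
  side_base : side base = false

/-- The end of the walk along `w` that starts at `f`. -/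
def Lab.act (Λ : Lab) : List (Fin 6) → Λ.L → Λ.L
  | [], f => f
  | i :: w, f => Λ.act w (Λ.s i f)

/-- Walks without backtracking. -/
def Red : List (Fin 6) → Prop
  | [] => True
  | [_] => True
  | i :: j :: w => i ≠ j ∧ Red (j :: w)

/-- Closed walks of length at most `g` backtrack. -/
def Lab.Girth (Λ : Lab) (g : ℕ) : Prop :=
  ∀ w f, Red w → w ≠ [] → w.length ≤ g → Λ.act w f ≠ f

/-- Every label can be reached from the base. -/
def Lab.Conn (Λ : Lab) : Prop := ∀ f, ∃ w, Λ.act w Λ.base = f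

/-- A voltage assignment: the affine bijection `x ↦ e f i * x + d f i` of `ZMod 3` for the
edge from `f` to `s i f`. -/
structure Volt (Λ : Lab) where
  e : Λ.L → Fin 6 → ZMod 3
  d : Λ.L → Fin 6 → ZMod 3
  ee : ∀ f i, e f i * e f i = 1
  es : ∀ f i, e (Λ.s i f) i = e f i
  ds : ∀ f i, d (Λ.s i f) i = -(e f i * d f i)

namespace Volt

variable {Λ : Lab}

/-- The transport along an edge. -/
def m (V : Volt Λ) (f : Λ.L) (i : Fin 6) (x : ZMod 3) : ZMod 3 := V.e f i * x + V.d f i

/-- The transport along a walk. -/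
def tr (V : Volt Λ) : List (Fin 6) → Λ.L → ZMod 3 → ZMod 3
  | [], _, x => x
  | i :: w, f, x => V.tr w (Λ.s i f) (V.m f i x)

/-- A solution: a colour for every label that avoids all transports. -/
def Sol (V : Volt Λ) (c : Λ.L → ZMod 3) : Prop := ∀ f i, c (Λ.s i f) ≠ V.m f i (c f)

/-- The trivial voltage assignment. -/
def triv (Λ : Lab) : Volt Λ where
  e _ _ := 1
  d _ _ := 0
  ee _ _ := by simp
  es _ _ := rfl
  ds _ _ := by simp

/-- The sign pattern: the only edge with a negative sign is the edge number `0` at the base. -/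
def Sign (V : Volt Λ) : Prop := ∀ f i, Λ.side f = false →
  (f = Λ.base ∧ i = 0 → V.e f i = -1) ∧ (¬ (f = Λ.base ∧ i = 0) → V.e f i = 1)

theorem m_m (V : Volt Λ) (f : Λ.L) (i : Fin 6) (x : ZMod 3) :
    V.m (Λ.s i f) i (V.m f i x) = x := by
  have h := V.ee f i
  unfold m
  rw [V.es, V.ds]
  linear_combination x * h

theorem m_inj (V : Volt Λ) (f : Λ.L) (i : Fin 6) {x y : ZMod 3} (h : V.m f i x = V.m f i y) :
    x = y := by
  rw [← V.m_m f i x, h, V.m_m]

@[simp] theorem triv_m (f : Λ.L) (i : Fin 6) (x : ZMod 3) : (triv Λ).m f i x = x := by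
  simp [m, triv]

end Volt

/-! ## Structures with relation symbols `Option L`: a label for every `f`, and one more symbol -/

section Struct

variable (Λ : Lab)

/-- The small structure: one element for every label. -/
def RF : Option Λ.L → Λ.L → Λ.L → Prop
  | some f, x, y => x = f ∧ y = f
  | none, x, y => Λ.side x = false ∧ ∃ i, y = Λ.s i x

variable {Λ}

/-- The large structure: three elements for every label and one further element. -/
def RG (V : Volt Λ) : Option Λ.L → Option (Λ.L × ZMod 3) → Option (Λ.L × ZMod 3) → Prop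
  | some f, x, y => (∃ c, x = some (f, c)) ∧ y = x
  | none, x, y => ∃ f i c c', Λ.side f = false ∧ x = some (f, c) ∧ y = some (Λ.s i f, c') ∧
      c' ≠ V.m f i c

/-- Compatible pairs of elements of the large structure. -/
def Zr (V : Volt Λ) (u v : Λ.L × ZMod 3) : Prop :=
  (u.1 = v.1 → u.2 = v.2) ∧ ∀ i, v.1 = Λ.s i u.1 → v.2 ≠ V.m u.1 i u.2

/-- Equivalence of pairs with respect to walks of length at most `n`. -/
def Q (V W : Volt Λ) (n : ℕ) (u v u' v' : Λ.L × ZMod 3) : Prop :=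
  u.1 = u'.1 ∧ v.1 = v'.1 ∧ ∀ w : List (Fin 6), w.length ≤ n → Λ.act w u.1 = v.1 →
    (V.tr w u.1 u.2 = v.2 ↔ W.tr w u'.1 u'.2 = v'.2)

variable (Λ) {K : Type} (R : Option Λ.L → K → K → Prop)

/-- Adjacency from an element with label `f`. -/
def Edge (f : Λ.L) (x y : K) : Prop :=
  (Λ.side f = false ∧ R none x y) ∨ (Λ.side f = true ∧ R none y x)

/-- The elements with label `f` that survive `i` rounds of pruning. -/
def S : ℕ → Λ.L → K → Prop
  | 0, f, x => R (some f) x x
  | i + 1, f, x => S i f x ∧ ∀ m, ∃ y, S i (Λ.s m f) y ∧ Edge Λ R f x y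

/-- Pruning is stable after `i` rounds. -/
def Stable (i : ℕ) : Prop := ∀ f x, S Λ R i f x → S Λ R (i + 1) f x

/-- The elements that survive `i` rounds. -/
def Dom (i : ℕ) (x : K) : Prop := ∃ f, S Λ R i f x

variable {Λ}

/-- After `i` rounds the structure is stable, embeds into the large structure, and is small. -/
def Bad (V : Volt Λ) (i : ℕ) : Prop :=
  Stable Λ R i ∧ ∃ φ : K → Λ.L × ZMod 3, (∀ f x, S Λ R i f x → (φ x).1 = f) ∧
    (∀ x y, Dom Λ R i x → Dom Λ R i y → φ x = φ y → x = y) ∧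
    (∀ f m x y, Λ.side f = false → S Λ R i f x → S Λ R i (Λ.s m f) y → R none x y →
      (φ y).2 ≠ V.m f m (φ x).2) ∧
    i + Nat.card {x // Dom Λ R i x} ≤ Nat.card (Λ.L × ZMod 3)

/-- The negative structures. -/
def Neg (V : Volt Λ) : Prop := ∃ i, Bad R V i

end Struct

/-- The nesting depth of compositions in a term of Tarski's algebra. -/
def dep {I : Type} : T3 I → ℕ
  | .rel _ => 0
  | .idt => 0
  | .emp => 0
  | .compl t => dep t
  | .inter s t => max (dep s) (dep t)
  | .comp s t => max (dep s) (dep t) + 1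
  | .conv t => dep t

/-! ## Statements -/

/-- Label graphs of large girth. -/
def S_words : Prop := ∀ g, ∃ Λ : Lab, Λ.Girth g ∧ Λ.Conn

/-- Voltages without solution. -/
def S_count : Prop := ∀ Λ : Lab, ∃ V : Volt Λ, (∀ c, ¬ V.Sol c) ∧ V.Sign

/-- Closed short walks have trivial transport. -/
def S_red : Prop := ∀ (Λ : Lab) (g : ℕ), Λ.Girth g → ∀ (V : Volt Λ) (w : List (Fin 6)) (f : Λ.L),
  w.length ≤ g → Λ.act w f = f → ∀ x, V.tr w f x = x

/-- Terms of bounded depth do not distinguish equivalent pairs. -/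
def S_ef : Prop := ∀ (Λ : Lab) (I : Type) (t : T3 I) (j : ℕ), dep t ≤ j → Λ.Girth (2 ^ (j + 1)) →
  ∀ (V W : Volt Λ) (B B' : I → Λ.L × ZMod 3 → Λ.L × ZMod 3 → Prop),
    (∀ i u v u' v', Q V W 1 u v u' v' → (B i u v ↔ B' i u' v')) →
      ∀ u v u' v', Q V W (2 ^ j) u v u' v' → (t.eval _ B u v ↔ t.eval _ B' u' v')

/-- Solutions of the trivial system through given compatible pairs. -/
def S_sec : Prop := ∀ (Λ : Lab) (n : ℕ), 1 ≤ n → Λ.Girth (2 * n + 2) → ∀ (V : Volt Λ)
  (u v : Λ.L × ZMod 3), Zr V u v → ∃ c : Λ.L → ZMod 3, (Volt.triv Λ).Sol c ∧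
    Q V (Volt.triv Λ) n u v (u.1, c u.1) (v.1, c v.1)

/-- Substructures of negative structures are negative. -/
def S_mono : Prop := ∀ (Λ : Lab) (V : Volt Λ) (K K' : Type) (e : K ↪ K')
  (R : Option Λ.L → K → K → Prop) (R' : Option Λ.L → K' → K' → Prop),
    (∀ i x y, R i x y → R' i (e x) (e y)) → Neg R' V → Neg R V

/-- The small structure is not negative. -/
def S_F : Prop := ∀ (Λ : Lab) (V : Volt Λ), (∀ c, ¬ V.Sol c) → ¬ Neg (RF Λ) V

/-- The large structure is negative. -/
def S_G : Prop := ∀ (Λ : Lab) (V : Volt Λ), Λ.Girth 2 → Neg (RG V) V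

/-- Pieces with pair types that determine each other. -/
def S_cat : Prop := ∀ (T : Type) (C : Bool → Type) (t : ∀ b, C b → C b → T),
  (∀ b b' (x y : C b) (x' y' : C b'), t b x y = t b' x' y' → (x = y ↔ x' = y')) →
  (∀ b b' (x y : C b) (x' y' : C b'), t b x y = t b' x' y' → t b y x = t b' y' x') →
  (∀ b b' (x y : C b) (x' y' : C b'), t b x y = t b' x' y' →
    ∀ z, ∃ z', t b x z = t b' x' z' ∧ t b z y = t b' z' y') →
  (∀ x : C true, ∃ x' : C false, t true x x = t false x' x') →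
  (∀ x y z : C false, t false x x = t false y y → t false x x = t false z z →
    x = y ∨ x = z ∨ y = z) →
  ∃ φ : C true → C false, ∀ x y, t true x y = t false (φ x) (φ y)

/-- The combinatorial core of `S_blocks`. -/
def S_core : Prop := ∀ (a : ZMod 3 → ZMod 3 → Prop) (B : ZMod 3 → Prop),
  (∀ x y, a x y → y ≠ x) → (∃ y, B y) → (∀ x, ∃ y, B y ∧ a x y) →
  (∀ x x' y y', B y → B y' → y ≠ y' → a x y → a x y' →
    ∃ z z', B z ∧ B z' ∧ z ≠ z' ∧ a x' z ∧ a x' z') →
  (∀ y y' x, B y → B y' → a x y → ∃ x', a x' y') →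
  (∀ y y' x x', B y → B y' → x ≠ x' → a x y → a x' y → ∃ z z', z ≠ z' ∧ a z y' ∧ a z' y') →
  (∀ y, B y) ∧ ((∀ x y, a x y ↔ y ≠ x) ∨ (∀ x y, a x y ↔ y = x + 1) ∨
    ∀ x y, a x y ↔ y = x + 2)

/-- In a stable piece of the large structure at most two elements have the same type. -/
def S_blocks : Prop := ∀ (Λ : Lab), Λ.Conn → ∀ V : Volt Λ, V.Sign →
  ∀ (C T : Type) (t : C → C → T) (φ : C → Λ.L × ZMod 3) (adj : C → C → Prop),
    Function.Injective φ →
    (∀ x y x' y', t x y = t x' y' → (x = y ↔ x' = y')) →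
    (∀ x y x' y', t x y = t x' y' → t y x = t y' x') →
    (∀ x y x' y', t x y = t x' y' → (adj x y ↔ adj x' y')) →
    (∀ x y x' y', t x y = t x' y' → (φ y).1 = (φ y').1) →
    (∀ x y x' y', t x y = t x' y' → ∀ z, ∃ z', t x z = t x' z' ∧ t z y = t z' y') →
    (∀ x m, ∃ y, (φ y).1 = Λ.s m (φ x).1 ∧
      ((Λ.side (φ x).1 = false ∧ adj x y) ∨ (Λ.side (φ x).1 = true ∧ adj y x))) →
    (∀ x y m, Λ.side (φ x).1 = false → (φ y).1 = Λ.s m (φ x).1 → adj x y →
      (φ y).2 ≠ V.m (φ x).1 m (φ x).2) →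
    ∀ x y z, t x x = t y y → t x x = t z z → x = y ∨ x = z ∨ y = z

/-- Negativity is invariant under three-variable equivalence of some rank. -/
def S_inv : Prop := ∀ (Λ : Lab), Λ.Conn → ∀ V : Volt Λ, V.Sign → ∃ r : ℕ, ∀ (K K' : Type)
  (R : Option Λ.L → K → K → Prop) (R' : Option Λ.L → K' → K' → Prop) (a b : K) (a' b' : K'),
    Bis R R' r a b a' b' → Neg R V → Neg R' V

end Pool.Agent.Work.MP_3f6cab_lc.F22
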