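import Pool.Agent.Work.MP_3f6cab_lc.F22.Ops
import Pool.Agent.Work.MP_3f6cab_lc.F22.Lab

/-!
# Closed sets of safe operations over finite structures
-/

set_option autoImplicit false

namespace Pool.Agent.Work.MP_3f6cab_lc.F22

/-- Definability over finite structures by a term of Tarski's algebra. -/
def D3 {n : ℕ} (f : Op n) : Prop :=
  ∃ t : T3 (Fin n), ∀ A h R x y, t.eval A R x y ↔ f A h R x y

theorem d3_of_def3 {n : ℕ} {f : GOp (Fin n)} (hf : Def3 f) : D3 (fun A _ R => f A R : Op n) := by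
  obtain ⟨t, ht⟩ := hf
  exact ⟨t, fun A _ R x y => ht A R x y⟩

theorem d3_subst {k n : ℕ} {f : Op k} (hf : D3 f) {g : Fin k → Op n} (hg : ∀ i, D3 (g i)) :
    D3 (fun A h R => f A h fun i => g i A h R : Op n) := by
  obtain ⟨t, ht⟩ := hf
  choose σ hσ using hg
  refine ⟨t.subst σ, fun A h R x y => ?_⟩
  have : (fun i => (σ i).eval A R) = fun i => g i A h R := by
    funext i x y
    exact propext (hσ i A h R x y)
  rw [T3.eval_subst, this]
  exact ht A h _ x y

theorem d3_of_term {n : ℕ} (t : Term TRA n) : D3 t.eval := by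
  induction t with
  | rel i => exact d3_of_def3 (Def3.rel i)
  | app k f hf args ih =>
    simp only [TRA, Set.mem_insert_iff, Set.mem_singleton_iff, Sigma.mk.injEq] at hf
    rcases hf with ⟨rfl, h⟩ | ⟨rfl, h⟩ | ⟨rfl, h⟩ | ⟨rfl, h⟩ | ⟨rfl, h⟩ | ⟨rfl, h⟩ <;>
      (have h' := eq_of_heq h; subst h')
    · exact d3_of_def3 Def3.idt
    · exact d3_of_def3 Def3.emp
    · exact d3_subst (d3_of_def3 (Def3.compl (Def3.rel 0))) ih
    · exact d3_subst (d3_of_def3 (Def3.inter (Def3.rel 0) (Def3.rel 1))) ih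
    · exact d3_subst (d3_of_def3 (Def3.comp (Def3.rel 0) (Def3.rel 1))) ih
    · exact d3_subst (d3_of_def3 (Def3.conv (Def3.rel 0))) ih

theorem d3_of_definable {n : ℕ} {f : Op n} (h : Definable TRA f) : D3 f := by
  obtain ⟨t, ht⟩ := h
  obtain ⟨u, hu⟩ := d3_of_term t
  exact ⟨u, fun A h R x y => by rw [hu A h R x y, ht]⟩

theorem definable_of_t3 {n : ℕ} (t : T3 (Fin n)) : Definable TRA (fun A _ R => t.eval A R : Op n) := by
  have m1 : (⟨0, idOp⟩ : Σ k, Op k) ∈ TRA := by simp [TRA]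
  have m2 : (⟨0, emptyOp⟩ : Σ k, Op k) ∈ TRA := by simp [TRA]
  have m3 : (⟨1, complOp⟩ : Σ k, Op k) ∈ TRA := by simp [TRA]
  have m4 : (⟨2, interOp⟩ : Σ k, Op k) ∈ TRA := by simp [TRA]
  have m5 : (⟨2, compOp⟩ : Σ k, Op k) ∈ TRA := by simp [TRA]
  have m6 : (⟨1, convOp⟩ : Σ k, Op k) ∈ TRA := by simp [TRA]
  induction t with
  | rel i => exact ⟨.rel i, fun _ _ _ => rfl⟩
  | idt => exact ⟨.app 0 idOp m1 Fin.elim0, fun _ _ _ => rfl⟩
  | emp => exact ⟨.app 0 emptyOp m2 Fin.elim0, fun _ _ _ => rfl⟩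
  | compl t ih =>
    obtain ⟨u, hu⟩ := ih
    refine ⟨.app 1 complOp m3 fun _ => u, fun A h R => ?_⟩
    simp only [Term.eval, T3.eval, hu]
    rfl
  | inter s t ihs iht =>
    obtain ⟨u, hu⟩ := ihs
    obtain ⟨v, hv⟩ := iht
    refine ⟨.app 2 interOp m4 ![u, v], fun A h R => ?_⟩
    show (fun x y => u.eval A h R x y ∧ v.eval A h R x y) = _
    rw [hu, hv]
    rfl
  | comp s t ihs iht =>
    obtain ⟨u, hu⟩ := ihs
    obtain ⟨v, hv⟩ := iht
    refine ⟨.app 2 compOp m5 ![u, v], fun A h R => ?_⟩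
    show (fun x y => ∃ z, u.eval A h R x z ∧ v.eval A h R z y) = _
    rw [hu, hv]
    rfl
  | conv t ih =>
    obtain ⟨u, hu⟩ := ih
    refine ⟨.app 1 convOp m6 fun _ => u, fun A h R => ?_⟩
    simp only [Term.eval, T3.eval, hu]
    rfl

theorem definable_of_d3 {n : ℕ} {f : Op n} (h : D3 f) : Definable TRA f := by
  obtain ⟨t, ht⟩ := h
  obtain ⟨u, hu⟩ := definable_of_t3 t
  refine ⟨u, fun A h R => (hu A h R).trans ?_⟩
  funext x y
  exact propext (ht A h R x y)

theorem safeTRA_subset : SafeTRA ⊆ SafeFO := by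
  rintro ⟨n, f⟩ ⟨h1, h2⟩
  obtain ⟨t, ht⟩ := d3_of_definable h2
  exact ⟨h1, t.tr 0 1 2, fun A h R v => ((T3.sat_tr R t 0 1 2 v (by omega) (by omega)).trans
    (ht A h R _ _)).symm⟩

/-! ## Closed sets of safe operations -/

/-- The auxiliary operation `X ∪ (Y ∩ ⊤ Z ⊤)`. -/
def tau : Op 3 := fun _ _ X x y => X 0 x y ∨ (X 1 x y ∧ ∃ u v, X 2 u v)

theorem tau_mem : (⟨3, tau⟩ : Σ k, Op k) ∈ WeakSafeTRA := by
  refine ⟨?_, definable_of_d3 (d3_of_def3 (f := fun _ X x y => X 0 x y ∨ (X 1 x y ∧ ∃ u v, X 2 u v)) ?_)⟩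
  · rintro A B hA hB e P R h a b (h0 | ⟨h1, u, v, h2⟩)
    · exact Or.inl (h _ _ _ h0)
    · exact Or.inr ⟨h _ _ _ h1, e u, e v, h _ _ _ h2⟩
  · refine Def3.congr (fun A R x y => ?_) (Def3.union (Def3.rel 0) (Def3.inter (Def3.rel 1)
      (Def3.comp (Def3.comp Def3.top (Def3.rel 2)) Def3.top)))
    simp only [and_true, true_and]
    constructor
    · rintro (h | ⟨h, v, u, h'⟩)
      · exact Or.inl h
      · exact Or.inr ⟨h, u, v, h'⟩
    · rintro (h | ⟨h, u, v, h'⟩)
      · exact Or.inl h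
      · exact Or.inr ⟨h, v, u, h'⟩

/-- Operations of a closed set of safe operations that contains `tau` are preserved by
proper weak extensions. -/
theorem proper_ext {C : Set (Σ k, Op k)} (hC : Closed C)
    (hW : (⟨3, tau⟩ : Σ k, Op k) ∈ C) (hS : C ⊆ SafeFO) {n : ℕ} {f : Op n}
    (hf : (⟨n, f⟩ : Σ k, Op k) ∈ C)
    {A B : Type} (hA : Finite A) (hB : Finite B) (e : A ↪ B) (w : B) (hw : ∀ x, e x ≠ w)
    {P : Fin n → A → A → Prop}
    {R : Fin n → B → B → Prop} (hPR : ∀ i x y, P i x y → R i (e x) (e y)) {a b : A}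
    (h : f A hA P a b) : f B hB R (e a) (e b) := by
  let t : Term C (n + n + 1) := .app n f hf fun j => .app 3 tau hW
    ![.rel (Fin.castSucc (Fin.castAdd n j)), .rel (Fin.castSucc (Fin.natAdd n j)), .rel (Fin.last _)]
  have hF : Safe (t.eval) := (hS (hC _ t.eval ⟨t, fun _ _ _ => rfl⟩)).1
  have hev : ∀ (D : Type) (hD : Finite D) (U : Fin (n + n + 1) → D → D → Prop), t.eval D hD U =
      f D hD fun j x y => U (Fin.castSucc (Fin.castAdd n j)) x y ∨
        (U (Fin.castSucc (Fin.natAdd n j)) x y ∧ ∃ u v, U (Fin.last _) u v) := by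
    intro D hD U
    rfl
  let T : Fin n → B → B → Prop := fun j x y => ∃ x0 y0, e x0 = x ∧ e y0 = y ∧ P j x0 y0
  let U : Fin (n + n + 1) → B → B → Prop :=
    Fin.snoc (α := fun _ => B → B → Prop) (Fin.append T R) fun u v => u = w ∧ v = w
  have p1 : ∀ j, U (Fin.castSucc (Fin.castAdd n j)) = T j := by
    intro j
    simp only [U, Fin.snoc_castSucc, Fin.append_left]
  have p2 : ∀ j, U (Fin.castSucc (Fin.natAdd n j)) = R j := by
    intro j
    simp only [U, Fin.snoc_castSucc, Fin.append_right]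
  have p3 : U (Fin.last _) = fun u v => u = w ∧ v = w := by
    simp only [U, Fin.snoc_last]
  have h1 := hF A B hA hB e U a b
  rw [hev, hev] at h1
  have h2 : (fun (j : Fin n) (x y : A) => U (Fin.castSucc (Fin.castAdd n j)) (e x) (e y) ∨
      (U (Fin.castSucc (Fin.natAdd n j)) (e x) (e y) ∧ ∃ u v, U (Fin.last _) (e u) (e v))) = P := by
    funext j x y
    rw [p1, p2, p3]
    apply propext
    constructor
    · rintro (⟨x0, y0, h3, h4, h5⟩ | ⟨-, u, v, h3, -⟩)
      · rwa [e.injective h3, e.injective h4] at h5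
      · exact absurd h3 (hw u)
    · exact fun h3 => Or.inl ⟨x, y, rfl, rfl, h3⟩
  have h3 : (fun (j : Fin n) (x y : B) => U (Fin.castSucc (Fin.castAdd n j)) x y ∨
      (U (Fin.castSucc (Fin.natAdd n j)) x y ∧ ∃ u v, U (Fin.last _) u v)) = R := by
    funext j x y
    rw [p1, p2, p3]
    apply propext
    constructor
    · rintro (⟨x0, y0, rfl, rfl, h5⟩ | ⟨h4, -⟩)
      · exact hPR _ _ _ h5
      · exact h4
    · exact fun h4 => Or.inr ⟨h4, w, w, rfl, rfl⟩
  rw [h2, h3] at h1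
  exact h1 h

theorem weakSafe_term {n : ℕ} (t : Term WeakSafeTRA n) : WeakSafe t.eval ∧ D3 t.eval := by
  induction t with
  | rel i => exact ⟨fun A B hA hB e P R h a b hab => h _ _ _ hab, d3_of_def3 (Def3.rel i)⟩
  | app k f hf args ih =>
    refine ⟨fun A B hA hB e P R h a b hab => ?_, ?_⟩
    · exact hf.1 A B hA hB e _ _ (fun i x y hxy => (ih i).1 A B hA hB e P R h x y hxy) a b hab
    · exact d3_subst (d3_of_definable hf.2) fun i => (ih i).2

theorem closed_weakSafeTRA : Closed WeakSafeTRA := by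
  rintro n f ⟨t, ht⟩
  have h1 : t.eval = f := by
    funext A h R
    exact ht A h R
  subst h1
  exact ⟨(weakSafe_term t).1, definable_of_d3 (weakSafe_term t).2⟩

theorem weakSafeTRA_subset : WeakSafeTRA ⊆ SafeTRA :=
  fun _ ho => ⟨fun A B hA hB e R a b h => ho.1 A B hA hB e _ R (fun _ _ _ hxy => hxy) a b h, ho.2⟩

theorem properSafe_term {n : ℕ} (t : Term MaxSafeTRA n) : Safe t.eval ∧ ProperSafe t.eval ∧
    D3 t.eval := by
  induction t with
  | rel i => exact ⟨fun A B hA hB e R a b h => h, fun A B hA hB e P R h _ a b hab => h _ _ _ hab,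
      d3_of_def3 (Def3.rel i)⟩
  | app k f hf args ih =>
    refine ⟨fun A B hA hB e R a b h => ?_, fun A B hA hB e P R h hw a b hab => ?_, ?_⟩
    · by_cases hw : ∃ w, ∀ x, e x ≠ w
      · exact hf.2.1 A B hA hB e _ _ (fun i x y hxy => (ih i).1 A B hA hB e R x y hxy) hw a b h
      · push Not at hw
        refine hf.1 A B hA hB e _ a b ?_
        have h1 : (fun (i : Fin k) (x y : A) => (args i).eval B hB R (e x) (e y)) =
            fun i => (args i).eval A hA fun j x y => R j (e x) (e y) := by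
          funext i x y
          apply propext
          constructor
          · intro hxy
            let e' : B ≃ A := (Equiv.ofBijective e ⟨e.injective, hw⟩).symm
            have he : ∀ z, e (e' z) = z := fun z =>
              (Equiv.ofBijective e ⟨e.injective, hw⟩).apply_symm_apply z
            have he' : ∀ z, e' (e z) = z := fun z =>
              (Equiv.ofBijective e ⟨e.injective, hw⟩).symm_apply_apply z
            have h2 := (ih i).1 B A hB hA e'.toEmbedding (fun j x y => R j (e x) (e y)) (e x) (e y)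
            have h3 : (fun (j : Fin _) (x y : B) => R j (e (e'.toEmbedding x))
                (e (e'.toEmbedding y))) = R := by
              funext j x y
              show R j (e (e' x)) (e (e' y)) = _
              rw [he, he]
            rw [h3] at h2
            have h4 := h2 hxy
            have h5 : e'.toEmbedding (e x) = x := he' x
            have h6 : e'.toEmbedding (e y) = y := he' y
            rwa [h5, h6] at h4
          · exact (ih i).1 A B hA hB e R x y
        rw [h1]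
        exact h
    · exact hf.2.1 A B hA hB e _ _ (fun i x y hxy => (ih i).2.1 A B hA hB e P R h hw x y hxy)
        hw a b hab
    · exact d3_subst (d3_of_definable hf.2.2) fun i => (ih i).2.2

theorem closed_maxSafeTRA : Closed MaxSafeTRA := by
  rintro n f ⟨t, ht⟩
  have h1 : t.eval = f := by
    funext A h R
    exact ht A h R
  subst h1
  exact ⟨(properSafe_term t).1, (properSafe_term t).2.1, definable_of_d3 (properSafe_term t).2.2⟩

theorem tau_of {C : Set (Σ k, Op k)} (hC : Closed C) (hB : Basic ⊆ C) :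
    (⟨3, tau⟩ : Σ k, Op k) ∈ C := by
  have h1 : (⟨2, unionOp⟩ : Σ k, Op k) ∈ C := hB (by simp [Basic])
  have h2 : (⟨2, interOp⟩ : Σ k, Op k) ∈ C := hB (by simp [Basic])
  have h3 : (⟨2, compOp⟩ : Σ k, Op k) ∈ C := hB (by simp [Basic])
  have h4 : (⟨0, topOp⟩ : Σ k, Op k) ∈ C := hB (by simp [Basic])
  refine hC 3 tau ⟨.app 2 unionOp h1 ![.rel 0, .app 2 interOp h2 ![.rel 1, .app 2 compOp h3
    ![.app 0 topOp h4 Fin.elim0, .app 2 compOp h3 ![.rel 2, .app 0 topOp h4 Fin.elim0]]]],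
    fun A h R => ?_⟩
  funext x y
  show (R 0 x y ∨ (R 1 x y ∧ ∃ z, True ∧ ∃ w, R 2 z w ∧ True)) =
    (R 0 x y ∨ (R 1 x y ∧ ∃ u v, R 2 u v))
  simp only [true_and, and_true]

theorem subset_max {C : Set (Σ k, Op k)} (hC : Closed C) (hB : Basic ⊆ C) (hS : C ⊆ SafeTRA) :
    C ⊆ MaxSafeTRA := by
  rintro ⟨n, f⟩ hf
  refine ⟨(hS hf).1, fun A B hA hB' e P R h hw a b hab => ?_, (hS hf).2⟩
  obtain ⟨w, hw⟩ := hw
  exact proper_ext hC (tau_of hC hB) (hS.trans safeTRA_subset) hf hA hB' e w hw h hab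

theorem properSafe_of_mem {C : Set (Σ k, Op k)} (hC : Closed C) (hW : WeakSafeTRA ⊆ C)
    (hS : C ⊆ SafeFO) {n : ℕ} {f : Op n} (hf : (⟨n, f⟩ : Σ k, Op k) ∈ C) : ProperSafe f := by
  rintro A B hA hB e P R h ⟨w, hw⟩ a b hab
  exact proper_ext hC (hW tau_mem) hS hf hA hB e w hw h hab

theorem weakSafeTRA_subset_max : WeakSafeTRA ⊆ MaxSafeTRA :=
  fun _ ho => ⟨(weakSafeTRA_subset ho).1, fun A B hA hB e P R h _ a b hab =>
    ho.1 A B hA hB e P R h a b hab, ho.2⟩

theorem basic_subset : Basic ⊆ WeakSafeTRA := by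
  intro o ho
  simp only [Basic, Set.mem_insert_iff, Set.mem_singleton_iff] at ho
  rcases ho with rfl | rfl | rfl | rfl
  · refine ⟨?_, definable_of_d3 (d3_of_def3 (Def3.union (Def3.rel 0) (Def3.rel 1)))⟩
    rintro A B hA hB e P R h a b (h1 | h1)
    · exact Or.inl (h _ _ _ h1)
    · exact Or.inr (h _ _ _ h1)
  · refine ⟨?_, definable_of_d3 (d3_of_def3 (Def3.inter (Def3.rel 0) (Def3.rel 1)))⟩
    rintro A B hA hB e P R h a b ⟨h1, h2⟩
    exact ⟨h _ _ _ h1, h _ _ _ h2⟩
  · refine ⟨?_, definable_of_d3 (d3_of_def3 (Def3.comp (Def3.rel 0) (Def3.rel 1)))⟩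
    rintro A B hA hB e P R h a b ⟨z, h1, h2⟩
    exact ⟨e z, h _ _ _ h1, h _ _ _ h2⟩
  · exact ⟨fun _ _ _ _ _ _ _ _ _ _ _ => trivial, definable_of_d3 (d3_of_def3 Def3.top)⟩

end Pool.Agent.Work.MP_3f6cab_lc.F22
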