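import Pool.Agent.Work.MP_3f6cab_lc.F22.Lab

/-!
# The combinatorial core of the block lemma: tables of size three

Reduction to a decidable statement on nine Boolean values.
-/

set_option autoImplicit false

namespace Pool.Agent.Work.MP_3f6cab_lc.F22

namespace JCore

/-- The table given by its six off-diagonal entries. -/
def tab (p01 p02 p10 p12 p20 p21 : Bool) : Fin 3 → Fin 3 → Bool :=
  ![![false, p01, p02], ![p10, false, p12], ![p20, p21, false]]

/-- The vector with the given entries. -/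
def vec (b0 b1 b2 : Bool) : Fin 3 → Bool := ![b0, b1, b2]

/-- Two different good neighbours. -/
def Two (A : Fin 3 → Fin 3 → Bool) (B : Fin 3 → Bool) (x : Fin 3) : Prop :=
  ∃ z z', B z = true ∧ B z' = true ∧ z ≠ z' ∧ A x z = true ∧ A x z' = true

instance (A : Fin 3 → Fin 3 → Bool) (B : Fin 3 → Bool) (x : Fin 3) : Decidable (Two A B x) := by
  unfold Two
  infer_instance

/-- Two different elements with the neighbour `y`. -/
def Owt (A : Fin 3 → Fin 3 → Bool) (y : Fin 3) : Prop :=
  ∃ z z', z ≠ z' ∧ A z y = true ∧ A z' y = true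

instance (A : Fin 3 → Fin 3 → Bool) (y : Fin 3) : Decidable (Owt A y) := by
  unfold Owt
  infer_instance

/-- The hypotheses, for Boolean tables. -/
def Hyp (A : Fin 3 → Fin 3 → Bool) (B : Fin 3 → Bool) : Prop :=
  (∃ y, B y = true) ∧ (∀ x, ∃ y, B y = true ∧ A x y = true) ∧
  (∀ x x', Two A B x → Two A B x') ∧
  (∀ y y' x, B y = true → B y' = true → A x y = true → ∃ x', A x' y' = true) ∧
  (∀ y y', B y = true → B y' = true → Owt A y → Owt A y')

instance (A : Fin 3 → Fin 3 → Bool) (B : Fin 3 → Bool) : Decidable (Hyp A B) := by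
  unfold Hyp
  infer_instance

/-- The conclusion, for Boolean tables. -/
def Con (A : Fin 3 → Fin 3 → Bool) (B : Fin 3 → Bool) : Prop :=
  (∀ y, B y = true) ∧ ((∀ x y, A x y = true ↔ y ≠ x) ∨ (∀ x y, A x y = true ↔ y = x + 1) ∨
    ∀ x y, A x y = true ↔ y = x + 2)

instance (A : Fin 3 → Fin 3 → Bool) (B : Fin 3 → Bool) : Decidable (Con A B) := by
  unfold Con
  infer_instance

set_option maxRecDepth 100000 in
theorem key : ∀ (b0 b1 b2 p01 p02 p10 p12 p20 p21 : Bool),
    Hyp (tab p01 p02 p10 p12 p20 p21) (vec b0 b1 b2) →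
      Con (tab p01 p02 p10 p12 p20 p21) (vec b0 b1 b2) := by
  decide +kernel

end JCore

open JCore in
theorem prfCore : S_core := by
  classical
  intro a B h1 h2 h3 h4 h5 h6
  change Fin 3 → Fin 3 → Prop at a
  change Fin 3 → Prop at B
  have hA : ∀ x y, a x y ↔ tab (decide (a 0 1)) (decide (a 0 2)) (decide (a 1 0))
      (decide (a 1 2)) (decide (a 2 0)) (decide (a 2 1)) x y = true := by
    have d0 : ¬ a 0 0 := fun h => h1 0 0 h rfl
    have d1 : ¬ a 1 1 := fun h => h1 1 1 h rfl
    have d2 : ¬ a 2 2 := fun h => h1 2 2 h rfl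
    intro x y
    fin_cases x <;> fin_cases y <;> simp [tab, d0, d1, d2]
  have hB : ∀ y, B y ↔ vec (decide (B 0)) (decide (B 1)) (decide (B 2)) y = true := by
    intro y
    fin_cases y <;> simp [vec]
  have k := key (decide (B 0)) (decide (B 1)) (decide (B 2)) (decide (a 0 1)) (decide (a 0 2))
    (decide (a 1 0)) (decide (a 1 2)) (decide (a 2 0)) (decide (a 2 1))
  simp only [Hyp, Two, Owt, JCore.Con, ← hA, ← hB] at k
  refine k ⟨h2, h3, ?_, h5, ?_⟩
  · rintro x x' ⟨z, z', b, b', n, c, c'⟩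
    exact h4 x x' z z' b b' n c c'
  · rintro y y' b b' ⟨z, z', n, c, c'⟩
    exact h6 y y' z z' b b' n c c'

end Pool.Agent.Work.MP_3f6cab_lc.F22
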