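import Pool.Agent.Work.MP_3f6cab_lc.F22.Lab

/-!
# Voltages without solutions, by counting
-/

set_option autoImplicit false

namespace Pool.Agent.Work.MP_3f6cab_lc.F22

namespace JCount

open Classical in
/-- The signs: `-1` on the edge number `0` at the base and `1` elsewhere. -/
noncomputable def sg (Λ : Lab) (f : Λ.L) (i : Fin 6) : ZMod 3 :=
  if i = 0 ∧ (f = Λ.base ∨ Λ.s i f = Λ.base) then -1 else 1

theorem sg_sg (Λ : Lab) (f : Λ.L) (i : Fin 6) : sg Λ f i * sg Λ f i = 1 := by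
  unfold sg
  split_ifs <;> simp

theorem sg_s (Λ : Lab) (f : Λ.L) (i : Fin 6) : sg Λ (Λ.s i f) i = sg Λ f i := by
  have h : (i = 0 ∧ (Λ.s i f = Λ.base ∨ Λ.s i (Λ.s i f) = Λ.base)) ↔
      (i = 0 ∧ (f = Λ.base ∨ Λ.s i f = Λ.base)) := by
    rw [Λ.ss, or_comm]
  classical
  unfold sg
  exact if_congr h rfl rfl

/-- The labels on side `false`. -/
abbrev A (Λ : Lab) : Type := {f : Λ.L // Λ.side f = false}

theorem side_other (Λ : Lab) (f : Λ.L) (i : Fin 6) (h : ¬ Λ.side f = false) :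
    Λ.side (Λ.s i f) = false := by
  rw [Λ.side_s]
  simpa using h

/-- The translation parts. -/
noncomputable def dd (Λ : Lab) (c : A Λ × Fin 6 → ZMod 3) (f : Λ.L) (i : Fin 6) : ZMod 3 :=
  if h : Λ.side f = false then c (⟨f, h⟩, i)
  else -(sg Λ f i * c (⟨Λ.s i f, side_other Λ f i h⟩, i))

theorem dd_s (Λ : Lab) (c : A Λ × Fin 6 → ZMod 3) (f : Λ.L) (i : Fin 6) :
    dd Λ c (Λ.s i f) i = -(sg Λ f i * dd Λ c f i) := by
  by_cases h : Λ.side f = false
  · have h' : ¬ Λ.side (Λ.s i f) = false := by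
      rw [Λ.side_s, h]
      simp
    unfold dd
    rw [dif_neg h', dif_pos h, sg_s]
    simp only [Λ.ss]
  · have h' : Λ.side (Λ.s i f) = false := side_other Λ f i h
    unfold dd
    rw [dif_pos h', dif_neg h]
    linear_combination (-c (⟨Λ.s i f, h'⟩, i)) * sg_sg Λ f i

/-- The voltage assignment given by the translation parts on side `false`. -/
noncomputable def VV (Λ : Lab) (c : A Λ × Fin 6 → ZMod 3) : Volt Λ where
  e := sg Λ
  d := dd Λ c
  ee := sg_sg Λ
  es := sg_s Λ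
  ds := dd_s Λ c

theorem VV_sign (Λ : Lab) (c : A Λ × Fin 6 → ZMod 3) : (VV Λ c).Sign := by
  intro f i hf
  constructor
  · rintro ⟨rfl, rfl⟩
    show sg Λ Λ.base 0 = -1
    unfold sg
    simp
  · intro hne
    show sg Λ f i = 1
    unfold sg
    rw [if_neg]
    rintro ⟨hi, h | h⟩
    · exact hne ⟨h, hi⟩
    · have h1 := Λ.side_s i f
      rw [h, Λ.side_base, hf] at h1
      simp at h1

theorem VV_sol (Λ : Lab) (c : A Λ × Fin 6 → ZMod 3) (k : Λ.L → ZMod 3) (h : (VV Λ c).Sol k)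
    (p : A Λ × Fin 6) : c p ≠ k (Λ.s p.2 p.1.1) - sg Λ p.1.1 p.2 * k p.1.1 := by
  intro hc
  refine h p.1.1 p.2 ?_
  show k (Λ.s p.2 p.1.1) = sg Λ p.1.1 p.2 * k p.1.1 + dd Λ c p.1.1 p.2
  have hd : dd Λ c p.1.1 p.2 = c p := by
    unfold dd
    rw [dif_pos p.1.2]
  rw [hd, hc]
  ring

theorem count (Λ : Lab) : ∃ c : A Λ × Fin 6 → ZMod 3, ∀ k, ¬ (VV Λ c).Sol k := by
  classical
  by_contra hcon
  push Not at hcon
  have : Finite Λ.L := Λ.fin
  let _ : Fintype Λ.L := Fintype.ofFinite _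
  have hsub : (Finset.univ : Finset (A Λ × Fin 6 → ZMod 3)) ⊆
      (Finset.univ : Finset (Λ.L → ZMod 3)).biUnion (fun k =>
        Fintype.piFinset (fun p : A Λ × Fin 6 =>
          Finset.univ.erase (k (Λ.s p.2 p.1.1) - sg Λ p.1.1 p.2 * k p.1.1))) := by
    intro c _
    obtain ⟨k, hk⟩ := hcon c
    rw [Finset.mem_biUnion]
    refine ⟨k, Finset.mem_univ _, ?_⟩
    rw [Fintype.mem_piFinset]
    intro p
    rw [Finset.mem_erase]
    exact ⟨VV_sol Λ c k hk p, Finset.mem_univ _⟩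
  have h1 := (Finset.card_le_card hsub).trans Finset.card_biUnion_le
  have h2 : ∀ k : Λ.L → ZMod 3, (Fintype.piFinset (fun p : A Λ × Fin 6 =>
      Finset.univ.erase (k (Λ.s p.2 p.1.1) - sg Λ p.1.1 p.2 * k p.1.1))).card =
      2 ^ Fintype.card (A Λ × Fin 6) := by
    intro k
    rw [Fintype.card_piFinset]
    rw [Finset.prod_congr rfl (fun p _ => by
      rw [Finset.card_erase_of_mem (Finset.mem_univ _), Finset.card_univ, ZMod.card])]
    rw [Finset.prod_const, Finset.card_univ]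
  rw [Finset.sum_congr rfl (fun k _ => h2 k), Finset.sum_const, smul_eq_mul, Finset.card_univ,
    Finset.card_univ, Fintype.card_fun, Fintype.card_fun, ZMod.card, Fintype.card_prod,
    Fintype.card_fin] at h1
  have hinj : Fintype.card Λ.L ≤ Fintype.card (A Λ × Bool) := by
    refine Fintype.card_le_of_injective (fun f =>
      if h : Λ.side f = false then ((⟨f, h⟩ : A Λ), false)
      else (⟨Λ.s 0 f, side_other Λ f 0 h⟩, true)) ?_
    intro f g hfg
    by_cases hf : Λ.side f = false <;> by_cases hg : Λ.side g = false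
    · simp only [dif_pos hf, dif_pos hg, Prod.mk.injEq, Subtype.mk.injEq] at hfg
      exact hfg.1
    · simp [hf, hg] at hfg
    · simp [hf, hg] at hfg
    · simp only [dif_neg hf, dif_neg hg, Prod.mk.injEq, Subtype.mk.injEq] at hfg
      have h3 := congrArg (Λ.s 0) hfg.1
      rwa [Λ.ss, Λ.ss] at h3
  rw [Fintype.card_prod, Fintype.card_bool] at hinj
  have ha : 0 < Fintype.card (A Λ) := Fintype.card_pos_iff.2 ⟨⟨Λ.base, Λ.side_base⟩⟩
  generalize Fintype.card (A Λ) = a at h1 hinj ha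
  generalize Fintype.card Λ.L = l at h1 hinj
  have h4 : 3 ^ (a * 6) ≤ 3 ^ (a * 2) * 2 ^ (a * 6) :=
    h1.trans (Nat.mul_le_mul_right _ (Nat.pow_le_pow_right (by norm_num) hinj))
  have h5 : 3 ^ (a * 6) = 729 ^ a := by
    rw [mul_comm a 6, pow_mul]
    norm_num
  have h6 : 3 ^ (a * 2) * 2 ^ (a * 6) = 576 ^ a := by
    rw [mul_comm a 6, mul_comm a 2, pow_mul, pow_mul, ← mul_pow]
    norm_num
  rw [h5, h6] at h4
  have h7 : 576 ^ a < 729 ^ a := Nat.pow_lt_pow_left (by norm_num) ha.ne'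
  omega

end JCount

/-- Voltages without solution. -/
theorem prfCount : S_count := by
  intro Λ
  obtain ⟨c, hc⟩ := JCount.count Λ
  exact ⟨JCount.VV Λ c, hc, JCount.VV_sign Λ c⟩

end Pool.Agent.Work.MP_3f6cab_lc.F22
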