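import Pool.Agent.Work.MP_3f6cab_lc.F22.Red

set_option autoImplicit false

/-!
# The pebble game: terms of bounded depth do not distinguish equivalent pairs
-/

namespace Pool.Agent.Work.MP_3f6cab_lc.F22

namespace JEf

variable {Λ : Lab}

theorem girth_mono {g g' : ℕ} (h : g' ≤ g) (hg : Λ.Girth g) : Λ.Girth g' :=
  fun w f hr hw hl => hg w f hr hw (hl.trans h)

theorem rev (V : Volt Λ) {w : List (Fin 6)} {f f' : Λ.L} {x x' : ZMod 3}
    (h : Λ.act w f = f') (hx : V.tr w f x = x') :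
    Λ.act w.reverse f' = f ∧ V.tr w.reverse f' x' = x := by
  subst h
  subst hx
  exact ⟨act_reverse Λ w f, tr_reverse V w f x⟩

theorem Q_swap {V W : Volt Λ} {n : ℕ} {u v u' v' : Λ.L × ZMod 3} (h : Q V W n u v u' v') :
    Q V W n v u v' u' := by
  obtain ⟨h1, h2, h3⟩ := h
  refine ⟨h2, h1, fun w hw ha => ?_⟩
  have hr : Λ.act w.reverse u.1 = v.1 := by rw [← ha]; exact act_reverse Λ w v.1
  have h4 := h3 w.reverse (by rw [List.length_reverse]; exact hw) hr
  constructor
  · intro hx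
    have h5 := (rev V ha hx).2
    have h6 := h4.mp h5
    have hr' : Λ.act w.reverse u'.1 = v'.1 := by rw [← h1, ← h2]; exact hr
    have h7 := (rev W hr' h6).2
    rwa [List.reverse_reverse] at h7
  · intro hx
    have ha' : Λ.act w v'.1 = u'.1 := by rw [← h1, ← h2]; exact ha
    have h5 := (rev W ha' hx).2
    have h6 := h4.mpr h5
    have h7 := (rev V hr h6).2
    rwa [List.reverse_reverse] at h7

theorem Q_symm {V W : Volt Λ} {n : ℕ} {u v u' v' : Λ.L × ZMod 3} (h : Q V W n u v u' v') :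
    Q W V n u' v' u v := by
  obtain ⟨h1, h2, h3⟩ := h
  exact ⟨h1.symm, h2.symm, fun w hw ha => (h3 w hw (by rw [h1, h2]; exact ha)).symm⟩

theorem Q_mono {V W : Volt Λ} {n n' : ℕ} (hn : n' ≤ n) {u v u' v' : Λ.L × ZMod 3}
    (h : Q V W n u v u' v') : Q V W n' u v u' v' :=
  ⟨h.1, h.2.1, fun w hw ha => h.2.2 w (hw.trans hn) ha⟩

theorem avoid (a b : ZMod 3) : ∃ x : ZMod 3, x ≠ a ∧ x ≠ b := by
  revert a b
  decide

theorem forthA {g : ℕ} (hg : Λ.Girth g) {V W : Volt Λ} {n : ℕ} (hn : 2 * n ≤ g)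
    {u v u' v' z : Λ.L × ZMod 3} (h : Q V W (2 * n) u v u' v') (w0 : List (Fin 6))
    (hw0 : w0.length ≤ n) (ha : Λ.act w0 u.1 = z.1) (hx : V.tr w0 u.1 u.2 = z.2) :
    ∃ z', Q V W n u z u' z' ∧ Q V W n z v z' v' := by
  obtain ⟨h1, h2, h3⟩ := h
  refine ⟨(z.1, W.tr w0 u'.1 u'.2), ⟨h1, rfl, fun w hw hz => ?_⟩, ⟨rfl, h2, fun w hw hz => ?_⟩⟩
  · constructor
    · intro _
      refine tr_unique hg W w w0 u'.1 ?_ (by omega) _
      rw [← h1, hz, ha]
    · intro _
      rw [← hx]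
      refine tr_unique hg V w w0 u.1 ?_ (by omega) _
      rw [hz, ha]
  · have h4 := h3 (w0 ++ w) (by rw [List.length_append]; omega) (by rw [act_append, ha]; exact hz)
    have ha' : Λ.act w0 u'.1 = z.1 := by rw [← h1]; exact ha
    rw [tr_append, tr_append, ha, hx, ha'] at h4
    exact h4

/-- The duplicator can answer every move. -/
theorem forth {g : ℕ} (hg : Λ.Girth g) {V W : Volt Λ} {n : ℕ} (hn : 2 * n ≤ g)
    {u v u' v' : Λ.L × ZMod 3} (h : Q V W (2 * n) u v u' v') (z : Λ.L × ZMod 3) :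
    ∃ z', Q V W n u z u' z' ∧ Q V W n z v z' v' := by
  by_cases hA : ∃ w : List (Fin 6), w.length ≤ n ∧ Λ.act w u.1 = z.1 ∧ V.tr w u.1 u.2 = z.2
  · obtain ⟨w0, hw0, ha, hx⟩ := hA
    exact forthA hg hn h w0 hw0 ha hx
  · by_cases hB : ∃ w : List (Fin 6), w.length ≤ n ∧ Λ.act w z.1 = v.1 ∧ V.tr w z.1 z.2 = v.2
    · obtain ⟨w0, hw0, ha, hx⟩ := hB
      obtain ⟨r1, r2⟩ := rev V ha hx
      obtain ⟨z', q1, q2⟩ := forthA hg hn (Q_swap h) w0.reverse
        (by rw [List.length_reverse]; exact hw0) r1 r2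
      exact ⟨z', Q_swap q2, Q_swap q1⟩
    · obtain ⟨h1, h2, h3⟩ := h
      obtain ⟨c1, hc1⟩ : ∃ c1 : ZMod 3, ∀ w : List (Fin 6), w.length ≤ n →
          Λ.act w u.1 = z.1 → W.tr w u'.1 u'.2 = c1 := by
        by_cases he : ∃ w : List (Fin 6), w.length ≤ n ∧ Λ.act w u.1 = z.1
        · obtain ⟨w1, hw1, ha1⟩ := he
          refine ⟨W.tr w1 u'.1 u'.2, fun w hw ha => tr_unique hg W w w1 u'.1 ?_ (by omega) _⟩
          rw [← h1, ha, ha1]
        · exact ⟨0, fun w hw ha => absurd ⟨w, hw, ha⟩ he⟩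
      obtain ⟨c2, hc2⟩ : ∃ c2 : ZMod 3, ∀ (w : List (Fin 6)) (x : ZMod 3), w.length ≤ n →
          Λ.act w z.1 = v.1 → W.tr w z.1 x = v'.2 → x = c2 := by
        by_cases he : ∃ w : List (Fin 6), w.length ≤ n ∧ Λ.act w z.1 = v.1
        · obtain ⟨w1, hw1, ha1⟩ := he
          refine ⟨W.tr w1.reverse v.1 v'.2, fun w x hw ha hx => ?_⟩
          obtain ⟨r1, r2⟩ := rev W ha hx
          rw [← r2]
          refine tr_unique hg W w.reverse w1.reverse v.1 ?_
            (by rw [List.length_reverse, List.length_reverse]; omega) _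
          rw [r1, ← ha1, act_reverse]
        · exact ⟨0, fun w x hw ha _ => absurd ⟨w, hw, ha⟩ he⟩
      obtain ⟨x, hx1, hx2⟩ := avoid c1 c2
      refine ⟨(z.1, x), ⟨h1, rfl, fun w hw ha => ?_⟩, ⟨rfl, h2, fun w hw ha => ?_⟩⟩
      · constructor
        · intro hh
          exact absurd ⟨w, hw, ha, hh⟩ hA
        · intro hh
          exact absurd (Eq.trans (Eq.symm hh) (hc1 w hw ha)) hx1
      · constructor
        · intro hh
          exact absurd ⟨w, hw, ha, hh⟩ hB
        · intro hh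
          exact absurd (hc2 w x hw ha hh) hx2

end JEf

open JEf in
/-- Terms of bounded depth do not distinguish equivalent pairs. -/
theorem prfEf (_hr : S_red) : S_ef := by
  intro Λ I t
  induction t with
  | rel i =>
    intro j _ _ V W B B' hB u v u' v' h
    exact hB i u v u' v' (Q_mono Nat.one_le_two_pow h)
  | idt =>
    intro j _ _ V W B B' hB u v u' v' h
    obtain ⟨h1, h2, h3⟩ := h
    have h4 := h3 [] (Nat.zero_le _)
    constructor
    · intro (he : u = v)
      have h5 := (h4 (congrArg Prod.fst he)).mp (congrArg Prod.snd he)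
      exact Prod.ext (h1.symm.trans ((congrArg Prod.fst he).trans h2)) h5
    · intro (he : u' = v')
      have e1 : u.1 = v.1 := h1.trans ((congrArg Prod.fst he).trans h2.symm)
      exact Prod.ext e1 ((h4 e1).mpr (congrArg Prod.snd he))
  | emp =>
    intro j _ _ V W B B' hB u v u' v' h
    exact Iff.rfl
  | compl t ih =>
    intro j hd hg V W B B' hB u v u' v' h
    exact not_congr (ih j hd hg V W B B' hB u v u' v' h)
  | inter s t ihs iht =>
    intro j hd hg V W B B' hB u v u' v' h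
    exact and_congr (ihs j (le_trans (le_max_left _ _) hd) hg V W B B' hB u v u' v' h)
      (iht j (le_trans (le_max_right _ _) hd) hg V W B B' hB u v u' v' h)
  | comp s t ihs iht =>
    intro j hd hg V W B B' hB u v u' v' h
    have hd' : max (dep s) (dep t) + 1 ≤ j := hd
    obtain ⟨k, rfl⟩ : ∃ k, j = k + 1 := ⟨j - 1, by omega⟩
    have hs : dep s ≤ k := by
      have := le_max_left (dep s) (dep t)
      omega
    have ht : dep t ≤ k := by
      have := le_max_right (dep s) (dep t)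
      omega
    have hg' : Λ.Girth (2 ^ (k + 1)) :=
      girth_mono (Nat.pow_le_pow_right (by norm_num) (by omega)) hg
    have hk : 2 * 2 ^ k = 2 ^ (k + 1) := (pow_succ' 2 k).symm
    have h' : Q V W (2 * 2 ^ k) u v u' v' := by rw [hk]; exact h
    constructor
    · rintro ⟨z, hz1, hz2⟩
      obtain ⟨z', q1, q2⟩ := forth hg' (le_of_eq hk) h' z
      exact ⟨z', (ihs k hs hg' V W B B' hB u z u' z' q1).mp hz1,
        (iht k ht hg' V W B B' hB z v z' v' q2).mp hz2⟩
    · rintro ⟨z', hz1, hz2⟩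
      obtain ⟨z, q1, q2⟩ := forth hg' (le_of_eq hk) (Q_symm h') z'
      exact ⟨z, (ihs k hs hg' V W B B' hB u z u' z' (Q_symm q1)).mpr hz1,
        (iht k ht hg' V W B B' hB z v z' v' (Q_symm q2)).mpr hz2⟩
  | conv t ih =>
    intro j hd hg V W B B' hB u v u' v' h
    exact ih j hd hg V W B B' hB v u v' u' (Q_swap h)

end Pool.Agent.Work.MP_3f6cab_lc.F22
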