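import Pool.Agent.Work.MP_3f6cab_lc.F22.Ef

/-!
# The pebble game for first-order formulas
-/

set_option autoImplicit false

namespace Pool.Agent.Work.MP_3f6cab_lc.F22

/-- The quantifier depth of a formula. -/
def qd {I : Type} : Fml I → ℕ
  | .rel _ _ _ => 0
  | .eq _ _ => 0
  | .neg φ => qd φ
  | .and φ ψ => max (qd φ) (qd ψ)
  | .ex _ φ => qd φ + 1

namespace JEfFO

open JEf

variable {Λ : Lab}

theorem comb (ρ : ZMod 3 → ZMod 3 → Prop)
    (h : ∀ c d c' d', ρ c c' → ρ d d' → (c = d ↔ c' = d')) (x : ZMod 3) :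
    ∃ x', ∀ c c', ρ c c' → (c = x ↔ c' = x') := by
  by_cases h1 : ∃ c', ρ x c'
  · obtain ⟨x', hx'⟩ := h1
    exact ⟨x', fun c c' hc => h c x c' x' hc hx'⟩
  · by_cases h2 : ∃ x', ∀ c, ¬ ρ c x'
    · obtain ⟨x', hx'⟩ := h2
      refine ⟨x', fun c c' hc => ⟨fun h3 => ?_, fun h3 => ?_⟩⟩
      · subst h3
        exact absurd ⟨c', hc⟩ h1
      · subst h3
        exact absurd hc (hx' c)
    · push Not at h2
      choose f hf using h2
      have hinj : Function.Injective f := fun a b hab => (h _ _ a b (hf a) (hf b)).1 hab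
      obtain ⟨y, hy⟩ := (Finite.surjective_of_injective hinj) x
      exact absurd ⟨y, hy ▸ hf y⟩ h1

/-- The duplicator can answer every move with respect to all pebbles. -/
theorem forth_all {g : ℕ} (_hg : Λ.Girth g) {V W : Volt Λ} {n : ℕ} (_hn : 2 * n ≤ g) {ι : Type}
    {v v' : ι → Λ.L × ZMod 3} (h : ∀ a b, Q V W (2 * n) (v a) (v b) (v' a) (v' b))
    (z : Λ.L × ZMod 3) : ∃ z', ∀ a, Q V W n (v a) z (v' a) z' := by
  obtain ⟨x', hx'⟩ := comb (fun c c' => ∃ a, ∃ w : List (Fin 6), w.length ≤ n ∧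
    Λ.act w (v a).1 = z.1 ∧ V.tr w (v a).1 (v a).2 = c ∧ W.tr w (v' a).1 (v' a).2 = c') (by
      rintro c d c' d' ⟨a, w, h1, h2, h3, h4⟩ ⟨b, w2, k1, k2, k3, k4⟩
      obtain ⟨r1, r2⟩ := rev V k2 k3
      have e1 : (v a).1 = (v' a).1 := (h a b).1
      have e2 : (v b).1 = (v' b).1 := (h a b).2.1
      have k2' : Λ.act w2 (v' b).1 = z.1 := by rw [← e2]; exact k2
      have h2' : Λ.act w (v' a).1 = z.1 := by rw [← e1]; exact h2
      obtain ⟨r3, r4⟩ := rev W k2' k4
      have h5 := (h a b).2.2 (w ++ w2.reverse)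
        (by rw [List.length_append, List.length_reverse]; omega)
        (by rw [act_append, h2]; exact r1)
      rw [tr_append, tr_append, h3, h4, h2, h2'] at h5
      constructor
      · intro hcd
        subst hcd
        have h6 := h5.1 r2
        rw [← r4] at h6
        have h7 := congrArg (W.tr w2 (v' b).1) h6
        have h8 : ∀ y, W.tr w2 (v' b).1 (W.tr w2.reverse z.1 y) = y := by
          intro y
          have h9 := tr_reverse W w2.reverse z.1 y
          rw [List.reverse_reverse, r3] at h9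
          exact h9
        rwa [h8, h8] at h7
      · intro hcd
        subst hcd
        have h6 := h5.2 r4
        rw [← r2] at h6
        have h7 := congrArg (V.tr w2 (v b).1) h6
        have h8 : ∀ y, V.tr w2 (v b).1 (V.tr w2.reverse z.1 y) = y := by
          intro y
          have h9 := tr_reverse V w2.reverse z.1 y
          rw [List.reverse_reverse, r1] at h9
          exact h9
        rwa [h8, h8] at h7) z.2
  refine ⟨(z.1, x'), fun a => ⟨(h a a).1, rfl, fun w hw ha => ?_⟩⟩
  exact hx' _ _ ⟨a, w, hw, ha, rfl, rfl⟩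

theorem Q_self {g : ℕ} (hg : Λ.Girth g) (V W : Volt Λ) {n : ℕ} (hn : n ≤ g)
    {u u' : Λ.L × ZMod 3} (h : u.1 = u'.1) : Q V W n u u u' u' := by
  refine ⟨h, h, fun w hw ha => ?_⟩
  have h1 : V.tr w u.1 u.2 = u.2 := prfRed Λ g hg V w u.1 (hw.trans hn) ha u.2
  have h2 : W.tr w u'.1 u'.2 = u'.2 :=
    prfRed Λ g hg W w u'.1 (hw.trans hn) (by rw [← h]; exact ha) u'.2
  exact iff_of_true h1 h2

end JEfFO

open JEf JEfFO in
/-- Formulas of bounded quantifier depth do not distinguish equivalent assignments. -/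
theorem ef_fo {Λ : Lab} {I : Type} (φ : Fml I) : ∀ j, qd φ ≤ j → Λ.Girth (2 ^ (j + 1)) →
    ∀ (V W : Volt Λ) (B B' : I → Λ.L × ZMod 3 → Λ.L × ZMod 3 → Prop),
    (∀ i u v u' v', Q V W 1 u v u' v' → (B i u v ↔ B' i u' v')) →
      ∀ v v' : ℕ → Λ.L × ZMod 3, (∀ a b, Q V W (2 ^ j) (v a) (v b) (v' a) (v' b)) →
        (φ.Sat B v ↔ φ.Sat B' v') := by
  induction φ with
  | rel i x y =>
    intro j _ _ V W B B' hB v v' h
    exact hB i _ _ _ _ (Q_mono Nat.one_le_two_pow (h x y))
  | eq x y =>
    intro j _ _ V W B B' hB v v' h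
    obtain ⟨h1, h2, h3⟩ := h x y
    have h4 := h3 [] (Nat.zero_le _)
    constructor
    · intro (he : v x = v y)
      have h5 := (h4 (congrArg Prod.fst he)).mp (congrArg Prod.snd he)
      exact Prod.ext (h1.symm.trans ((congrArg Prod.fst he).trans h2)) h5
    · intro (he : v' x = v' y)
      have e1 : (v x).1 = (v y).1 := h1.trans ((congrArg Prod.fst he).trans h2.symm)
      exact Prod.ext e1 ((h4 e1).mpr (congrArg Prod.snd he))
  | neg φ ih =>
    intro j hd hg V W B B' hB v v' h
    exact not_congr (ih j hd hg V W B B' hB v v' h)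
  | and φ ψ ih1 ih2 =>
    intro j hd hg V W B B' hB v v' h
    exact and_congr (ih1 j (le_trans (le_max_left _ _) hd) hg V W B B' hB v v' h)
      (ih2 j (le_trans (le_max_right _ _) hd) hg V W B B' hB v v' h)
  | ex x φ ih =>
    intro j hd hg V W B B' hB v v' h
    have hd' : qd φ + 1 ≤ j := hd
    obtain ⟨k, rfl⟩ : ∃ k, j = k + 1 := ⟨j - 1, by omega⟩
    have hg' : Λ.Girth (2 ^ (k + 1)) :=
      girth_mono (Nat.pow_le_pow_right (by norm_num) (by omega)) hg
    have hk : 2 * 2 ^ k = 2 ^ (k + 1) := (pow_succ' 2 k).symm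
    have key : ∀ (V W : Volt Λ) (v v' : ℕ → Λ.L × ZMod 3),
        (∀ a b, Q V W (2 ^ (k + 1)) (v a) (v b) (v' a) (v' b)) → ∀ z, ∃ z', ∀ a b,
          Q V W (2 ^ k) (Function.update v x z a) (Function.update v x z b)
            (Function.update v' x z' a) (Function.update v' x z' b) := by
      intro V W v v' h z
      obtain ⟨z', hz'⟩ := forth_all hg' (le_of_eq hk) (V := V) (W := W) (n := 2 ^ k)
        (v := v) (v' := v') (by rw [hk]; exact h) z
      refine ⟨z', fun a b => ?_⟩
      by_cases ha : a = x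
      · by_cases hb : b = x
        · subst ha
          subst hb
          simp only [Function.update_self]
          exact Q_self hg' V W (Nat.pow_le_pow_right (by norm_num) (by omega)) (hz' 0).2.1
        · subst ha
          simp only [Function.update_self, Function.update_of_ne hb]
          exact Q_swap (hz' b)
      · by_cases hb : b = x
        · subst hb
          simp only [Function.update_self, Function.update_of_ne ha]
          exact hz' a
        · simp only [Function.update_of_ne ha, Function.update_of_ne hb]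
          exact Q_mono (Nat.pow_le_pow_right (by norm_num) (by omega)) (h a b)
    constructor
    · rintro ⟨z, hz⟩
      obtain ⟨z', hz'⟩ := key V W v v' h z
      exact ⟨z', (ih k (by omega) hg' V W B B' hB _ _ hz').1 hz⟩
    · rintro ⟨z', hz⟩
      obtain ⟨z, hz'⟩ := key W V v' v (fun a b => Q_symm (h a b)) z'
      exact ⟨z, (ih k (by omega) hg' V W B B' hB _ _ (fun a b => Q_symm (hz' a b))).2 hz⟩

end Pool.Agent.Work.MP_3f6cab_lc.F22
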