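import Pool.Agent.Work.MP_3f6cab_lc.F22.Lab

/-!
# The small structure is not negative, the large structure is negative
-/

set_option autoImplicit false

namespace Pool.Agent.Work.MP_3f6cab_lc.F22

namespace JFG

/-- in the small structure exactly the element `f` has label `f`, at every stage -/
theorem S_RF (Λ : Lab) (i : ℕ) : ∀ f x : Λ.L, S Λ (RF Λ) i f x ↔ x = f := by
  induction i with
  | zero =>
    intro f x
    simp [S, RF]
  | succ i ih =>
    intro f x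
    constructor
    · intro h
      exact (ih f x).1 h.1
    · rintro rfl
      refine ⟨(ih x x).2 rfl, fun m => ⟨Λ.s m x, (ih _ _).2 rfl, ?_⟩⟩
      rcases hs : Λ.side x with _ | _
      · exact Or.inl ⟨hs, hs, m, rfl⟩
      · refine Or.inr ⟨hs, ?_, m, (Λ.ss m x).symm⟩
        rw [Λ.side_s, hs]; rfl

theorem RF_edge (Λ : Lab) (f : Λ.L) (m : Fin 6) (hf : Λ.side f = false) :
    RF Λ none f (Λ.s m f) := ⟨hf, m, rfl⟩

theorem m_m' {Λ : Lab} (V : Volt Λ) (f : Λ.L) (i : Fin 6) (x : ZMod 3) :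
    V.m f i (V.m (Λ.s i f) i x) = x := by
  have h := V.m_m (Λ.s i f) i x
  rwa [Λ.ss] at h

/-- the projection of the large structure -/
def phi {Λ : Lab} (x : Option (Λ.L × ZMod 3)) : Λ.L × ZMod 3 := x.getD (Λ.base, 0)

theorem S0 {Λ : Lab} (V : Volt Λ) (f : Λ.L) (x : Option (Λ.L × ZMod 3))
    (h : S Λ (RG V) 0 f x) : ∃ c, x = some (f, c) := h.1

theorem dom_inj {Λ : Lab} (V : Volt Λ) (x y : Option (Λ.L × ZMod 3))
    (hx : Dom Λ (RG V) 0 x) (hy : Dom Λ (RG V) 0 y) (h : phi x = phi y) : x = y := by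
  obtain ⟨f, hf⟩ := hx
  obtain ⟨g, hg⟩ := hy
  obtain ⟨c, rfl⟩ := S0 V f x hf
  obtain ⟨d, rfl⟩ := S0 V g y hg
  exact congrArg some h

end JFG

theorem prfF : S_F := by
  intro Λ V hV
  rintro ⟨i, -, φ, -, -, h3, -⟩
  apply hV (fun f => (φ f).2)
  intro f m
  rcases hs : Λ.side f with _ | _
  · exact h3 f m f (Λ.s m f) hs ((JFG.S_RF Λ i _ _).2 rfl) ((JFG.S_RF Λ i _ _).2 rfl)
      (JFG.RF_edge Λ f m hs)
  · intro hc
    have hs' : Λ.side (Λ.s m f) = false := by rw [Λ.side_s, hs]; rfl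
    have h := h3 (Λ.s m f) m (Λ.s m f) (Λ.s m (Λ.s m f)) hs' ((JFG.S_RF Λ i _ _).2 rfl)
      ((JFG.S_RF Λ i _ _).2 rfl) (JFG.RF_edge Λ _ m hs')
    apply h
    have hc' : (φ (Λ.s m f)).2 = V.m f m (φ f).2 := hc
    rw [hc', V.m_m, Λ.ss]

theorem prfG : S_G := by
  intro Λ V hg
  refine ⟨0, ?_, JFG.phi, ?_, JFG.dom_inj V, ?_, ?_⟩
  · intro f x hx
    refine ⟨hx, fun m => ?_⟩
    obtain ⟨c, rfl⟩ := JFG.S0 V f x hx
    refine ⟨some (Λ.s m f, V.m f m c + 1), ⟨⟨_, rfl⟩, rfl⟩, ?_⟩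
    have hne : V.m f m c + 1 ≠ V.m f m c := by
      intro h
      have h1 : (1 : ZMod 3) = 0 := by simpa using h
      exact absurd h1 (by decide)
    rcases hs : Λ.side f with _ | _
    · exact Or.inl ⟨hs, f, m, c, _, hs, rfl, rfl, hne⟩
    · refine Or.inr ⟨hs, Λ.s m f, m, _, c, ?_, rfl, ?_, ?_⟩
      · rw [Λ.side_s, hs]; rfl
      · rw [Λ.ss]
      · intro h
        apply hne
        have h2 := JFG.m_m' V f m (V.m f m c + 1)
        rw [← h] at h2
        exact h2.symm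
  · intro f x hx
    obtain ⟨c, rfl⟩ := JFG.S0 V f x hx
    rfl
  · intro f m x y _ hx hy hxy
    obtain ⟨c, rfl⟩ := JFG.S0 V f x hx
    obtain ⟨d, rfl⟩ := JFG.S0 V _ y hy
    obtain ⟨f1, i, c1, c2, _, h1, h2, hne⟩ := hxy
    rw [Option.some.injEq, Prod.mk.injEq] at h1 h2
    obtain ⟨rfl, rfl⟩ := h1
    obtain ⟨h3, rfl⟩ := h2
    have him : i = m := by
      by_contra him
      refine hg [i, m] f ⟨him, trivial⟩ (by simp) (by simp) ?_
      show Λ.s m (Λ.s i f) = f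
      rw [← h3, Λ.ss]
    subst him
    exact hne
  · rw [Nat.zero_add]
    haveI := Λ.fin
    exact Nat.card_le_card_of_injective (fun x : {x // Dom Λ (RG V) 0 x} => JFG.phi x.1)
      (fun x y h => Subtype.ext (JFG.dom_inj V x.1 y.1 x.2 y.2 h))

end Pool.Agent.Work.MP_3f6cab_lc.F22
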