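import Pool.Agent.Work.MP_3f6cab_lc.F22.Lab

/-!
# Negativity is invariant under three-variable equivalence of some rank
-/

set_option autoImplicit false

namespace Pool.Agent.Work.MP_3f6cab_lc.F22

namespace JInv

theorem bis_refl {I D : Type} (R : I → D → D → Prop) : ∀ (r : ℕ) (a b : D), Bis R R r a b a b
  | 0, _, _ => ⟨fun _ => Iff.rfl, fun _ => Iff.rfl, Iff.rfl⟩
  | r + 1, a, b => ⟨bis_refl R r a b, fun c => ⟨c, bis_refl R r a c, bis_refl R r c b⟩,
      fun c => ⟨c, bis_refl R r a c, bis_refl R r c b⟩⟩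

theorem bis_trans {I D D' D'' : Type} {R : I → D → D → Prop} {R' : I → D' → D' → Prop}
    {R'' : I → D'' → D'' → Prop} : ∀ {r : ℕ} {a b : D} {a' b' : D'} {a'' b'' : D''},
    Bis R R' r a b a' b' → Bis R' R'' r a' b' a'' b'' → Bis R R'' r a b a'' b''
  | 0, _, _, _, _, _, _, h, h' => ⟨fun i => (h.1 i).trans (h'.1 i),
      fun i => (h.2.1 i).trans (h'.2.1 i), h.2.2.trans h'.2.2⟩
  | r + 1, a, b, a', b', a'', b'', h, h' => by
      refine ⟨bis_trans h.1 h'.1, fun c => ?_, fun c'' => ?_⟩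
      · obtain ⟨c', h1, h2⟩ := h.2.1 c
        obtain ⟨c'', h3, h4⟩ := h'.2.1 c'
        exact ⟨c'', bis_trans h1 h3, bis_trans h2 h4⟩
      · obtain ⟨c', h1, h2⟩ := h'.2.2 c''
        obtain ⟨c, h3, h4⟩ := h.2.2 c'
        exact ⟨c, bis_trans h3 h1, bis_trans h4 h2⟩

section

variable {Λ : Lab} {K K' : Type} {R : Option Λ.L → K → K → Prop} {R' : Option Λ.L → K' → K' → Prop}

/-- The labels after `i` rounds of pruning, and adjacency. -/
def BR (i : ℕ) (R : Option Λ.L → K → K → Prop) : Option Λ.L → K → K → Prop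
  | some f, _, y => S Λ R i f y
  | none, x, y => R none x y

theorem edge_iff {r : ℕ} {a b : K} {a' b' : K'} (h : Bis R R' r a b a' b') (f : Λ.L) :
    Edge Λ R f a b ↔ Edge Λ R' f a' b' := by
  unfold Edge
  rw [h.atoms.1 none, h.atoms.2.1 none]

theorem s_imp : ∀ (i : ℕ) {x : K} {x' : K'}, Bis R R' (2 * i) x x x' x' → ∀ f,
    (S Λ R i f x ↔ S Λ R' i f x')
  | 0, x, x', h, f => h.atoms.1 (some f)
  | i + 1, x, x', h, f => by
      have h1 : Bis R R' (2 * i) x x x' x' := h.mono (by omega)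
      have h0 : Bis R R' (2 * i + 2) x x x' x' := h
      refine and_congr (s_imp i h1 f) (forall_congr' fun m => ?_)
      constructor
      · rintro ⟨y, h2, h3⟩
        obtain ⟨y', h4⟩ := h0.step1 y
        exact ⟨y', (s_imp i h4.right _).1 h2, (edge_iff h4 f).1 h3⟩
      · rintro ⟨y', h2, h3⟩
        obtain ⟨y, h4⟩ := h0.flip.step1 y'
        exact ⟨y, (s_imp i h4.flip.right _).2 h2, (edge_iff h4.flip f).2 h3⟩

theorem bis_br (i : ℕ) : ∀ (r : ℕ) {a b : K} {a' b' : K'}, Bis R R' (r + (2 * i + 1)) a b a' b' →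
    Bis (BR i R) (BR i R') r a b a' b'
  | 0, a, b, a', b', h => by
      have h1 : Bis R R' (2 * i + 1) a b a' b' := h.mono (by omega)
      refine ⟨fun f => ?_, fun f => ?_, h1.atoms.2.2⟩
      · cases f with
        | none => exact h1.atoms.1 none
        | some f => exact s_imp i h1.right f
      · cases f with
        | none => exact h1.atoms.2.1 none
        | some f => exact s_imp i h1.left f
  | r + 1, a, b, a', b', h => by
      have h1 : Bis R R' (r + (2 * i + 1) + 1) a b a' b' := h.mono (by omega)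
      refine ⟨bis_br i r h1.1, fun c => ?_, fun c' => ?_⟩
      · obtain ⟨c', h2, h3⟩ := h1.2.1 c
        exact ⟨c', bis_br i r h2, bis_br i r h3⟩
      · obtain ⟨c, h2, h3⟩ := h1.2.2 c'
        exact ⟨c, bis_br i r h2, bis_br i r h3⟩

end

theorem stab {α : Type} [Finite α] (A : ℕ → Set α) (h : ∀ j, A (j + 1) ⊆ A j) {N : ℕ}
    (hN : Nat.card α ≤ N) : ∃ j ≤ N, A j ⊆ A (j + 1) := by
  by_contra hcon
  push Not at hcon
  have h1 : ∀ j ≤ N, (A (j + 1)).ncard < (A j).ncard := fun j hj =>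
    Set.ncard_lt_ncard ⟨h j, hcon j hj⟩ (Set.toFinite _)
  have h2 : ∀ j ≤ N + 1, (A j).ncard + j ≤ (A 0).ncard := by
    intro j
    induction j with
    | zero => exact fun _ => le_rfl
    | succ j ih =>
      intro hj
      have := h1 j (by omega)
      have := ih (by omega)
      omega
  have h3 := h2 (N + 1) le_rfl
  have h4 : (A 0).ncard ≤ Nat.card α := Set.ncard_le_card _
  omega

section main

variable {Λ : Lab} {V : Volt Λ} {i j : ℕ} (KK : Bool → Type)
  (RR : ∀ b, Option Λ.L → KK b → KK b → Prop)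

/-- The surviving elements. -/
def CC (i : ℕ) (b : Bool) : Type := {x : KK b // Dom Λ (RR b) i x}

/-- The types of pairs. -/
def tt (i j : ℕ) (b : Bool) (x y : CC KK RR i b) : Set (CC KK RR i false × CC KK RR i false) :=
  {q | Bis (BR i (RR false)) (BR i (RR b)) j q.1.1 q.2.1 x.1 y.1}

variable {KK RR}

theorem dom_of {b b' : Bool} {r : ℕ} {x y : KK b} {x' y' : KK b'}
    (h : Bis (BR i (RR b)) (BR i (RR b')) r x y x' y') (hy : Dom Λ (RR b) i y) :
    Dom Λ (RR b') i y' := by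
  obtain ⟨f, hf⟩ := hy
  exact ⟨f, (h.atoms.1 (some f)).1 hf⟩

theorem k3 {b b' : Bool} {x y : CC KK RR i b} {x' y' : CC KK RR i b'}
    (h : Bis (BR i (RR b)) (BR i (RR b')) j x.1 y.1 x'.1 y'.1) :
    tt KK RR i j b x y = tt KK RR i j b' x' y' := by
  ext q
  exact ⟨fun hq => bis_trans hq h, fun hq => bis_trans hq h.flip⟩

theorem k2 (hst : ∀ x y x' y' : CC KK RR i false,
      Bis (BR i (RR false)) (BR i (RR false)) j x.1 y.1 x'.1 y'.1 →
      Bis (BR i (RR false)) (BR i (RR false)) (j + 1) x.1 y.1 x'.1 y'.1)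
    (k1 : ∀ (b : Bool) (x y : CC KK RR i b), ∃ q : CC KK RR i false × CC KK RR i false,
      Bis (BR i (RR false)) (BR i (RR b)) (j + 1) q.1.1 q.2.1 x.1 y.1)
    {b b' : Bool} {x y : CC KK RR i b} {x' y' : CC KK RR i b'}
    (h : tt KK RR i j b x y = tt KK RR i j b' x' y') :
    Bis (BR i (RR b)) (BR i (RR b')) (j + 1) x.1 y.1 x'.1 y'.1 := by
  obtain ⟨q, hq⟩ := k1 b x y
  obtain ⟨q', hq'⟩ := k1 b' x' y'
  have h1 : q ∈ tt KK RR i j b x y := hq.mono (by omega)
  rw [h] at h1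
  have h1' : Bis (BR i (RR false)) (BR i (RR b')) j q.1.1 q.2.1 x'.1 y'.1 := h1
  have h2 := hst _ _ _ _ (bis_trans h1' (hq'.mono (show j ≤ j + 1 by omega)).flip)
  exact bis_trans hq.flip (bis_trans h2 hq')

theorem bad_of (hcat : S_cat) (hblocks : S_blocks) (hconn : Λ.Conn) (hsign : V.Sign)
    (hbad : Bad (RR false) V i)
    (hst : ∀ x y x' y' : CC KK RR i false,
      Bis (BR i (RR false)) (BR i (RR false)) j x.1 y.1 x'.1 y'.1 →
      Bis (BR i (RR false)) (BR i (RR false)) (j + 1) x.1 y.1 x'.1 y'.1)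
    (k1 : ∀ (b : Bool) (x y : CC KK RR i b), ∃ q : CC KK RR i false × CC KK RR i false,
      Bis (BR i (RR false)) (BR i (RR b)) (j + 1) q.1.1 q.2.1 x.1 y.1) :
    Bad (RR true) V i := by
  classical
  obtain ⟨hstab, φ, hφl, hφi, hφe, hcard⟩ := hbad
  have K2 := fun (b b' : Bool) (x y : CC KK RR i b) (x' y' : CC KK RR i b')
    (h : tt KK RR i j b x y = tt KK RR i j b' x' y') => k2 hst k1 h
  have heq : ∀ b b' (x y : CC KK RR i b) (x' y' : CC KK RR i b'),
      tt KK RR i j b x y = tt KK RR i j b' x' y' → (x = y ↔ x' = y') := by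
    intro b b' x y x' y' h
    exact (Subtype.ext_iff.trans (K2 b b' x y x' y' h).atoms.2.2).trans Subtype.ext_iff.symm
  have hconv : ∀ b b' (x y : CC KK RR i b) (x' y' : CC KK RR i b'),
      tt KK RR i j b x y = tt KK RR i j b' x' y' →
        tt KK RR i j b y x = tt KK RR i j b' y' x' :=
    fun b b' x y x' y' h => k3 ((K2 b b' x y x' y' h).mono (by omega)).swap
  have hstep : ∀ b b' (x y : CC KK RR i b) (x' y' : CC KK RR i b'),
      tt KK RR i j b x y = tt KK RR i j b' x' y' → ∀ z, ∃ z',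
        tt KK RR i j b x z = tt KK RR i j b' x' z' ∧
          tt KK RR i j b z y = tt KK RR i j b' z' y' := by
    intro b b' x y x' y' h z
    obtain ⟨z', h1, h2⟩ := (K2 b b' x y x' y' h).2.1 z.1
    exact ⟨⟨z', dom_of h1 z.2⟩, k3 h1, k3 h2⟩
  have hcover : ∀ x : CC KK RR i true, ∃ x' : CC KK RR i false,
      tt KK RR i j true x x = tt KK RR i j false x' x' := by
    intro x
    obtain ⟨q, hq⟩ := k1 true x x
    have h1 : q.1 = q.2 := Subtype.ext (hq.atoms.2.2.2 rfl)
    rw [← h1] at hq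
    exact ⟨q.1, (k3 (hq.mono (by omega))).symm⟩
  have hlab : ∀ b (x : CC KK RR i b), ∃ f, S Λ (RR b) i f x.1 := fun b x => x.2
  have hbl : ∀ x y z : CC KK RR i false, tt KK RR i j false x x = tt KK RR i j false y y →
      tt KK RR i j false x x = tt KK RR i j false z z → x = y ∨ x = z ∨ y = z := by
    refine hblocks Λ hconn V hsign (CC KK RR i false) _ (tt KK RR i j false) (fun x => φ x.1)
      (fun x y => RR false none x.1 y.1) ?_ (heq false false) (hconv false false) ?_ ?_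
      (hstep false false) ?_ ?_
    · intro x y h
      exact Subtype.ext (hφi _ _ x.2 y.2 h)
    · intro x y x' y' h
      exact (K2 _ _ x y x' y' h).atoms.1 none
    · intro x y x' y' h
      obtain ⟨f, hf⟩ := hlab false y
      have h1 : S Λ (RR false) i f y'.1 := ((K2 _ _ x y x' y' h).atoms.1 (some f)).1 hf
      rw [hφl f _ hf, hφl f _ h1]
    · intro x m
      obtain ⟨f, hf⟩ := hlab false x
      have h1 := hφl f _ hf
      obtain ⟨y, h2, h3⟩ := (hstab f _ hf).2 m
      refine ⟨⟨y, _, h2⟩, ?_, ?_⟩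
      · show (φ y).1 = Λ.s m (φ x.1).1
        rw [h1, hφl _ _ h2]
      · show (Λ.side (φ x.1).1 = false ∧ _) ∨ (Λ.side (φ x.1).1 = true ∧ _)
        rw [h1]
        exact h3
    · intro x y m h1 h2 h3
      obtain ⟨f, hf⟩ := hlab false x
      obtain ⟨f', hf'⟩ := hlab false y
      have h4 := hφl f _ hf
      have h5 := hφl f' _ hf'
      have h6 : (φ y.1).1 = Λ.s m (φ x.1).1 := h2
      have h7 : Λ.side (φ x.1).1 = false := h1
      rw [h4, h5] at h6
      rw [h4] at h7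
      show (φ y.1).2 ≠ V.m (φ x.1).1 m (φ x.1).2
      rw [h4]
      subst h6
      exact hφe f m _ _ h7 hf hf' h3
  obtain ⟨ψ, hψ⟩ := hcat _ (CC KK RR i) (tt KK RR i j) heq hconv hstep hcover hbl
  have hψS : ∀ f (x : CC KK RR i true), S Λ (RR true) i f x.1 ↔ S Λ (RR false) i f (ψ x).1 :=
    fun f x => (K2 _ _ x x (ψ x) (ψ x) (hψ x x)).atoms.1 (some f)
  have hfinC : Finite (CC KK RR i false) := by
    have := Λ.fin
    exact Finite.of_injective (fun x : CC KK RR i false => φ x.1)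
      fun x y h => Subtype.ext (hφi _ _ x.2 y.2 h)
  have hψi : Function.Injective ψ := by
    intro x y h
    have h1 := hψ x y
    exact (heq _ _ _ _ _ _ h1).2 h
  refine ⟨?_, fun x => if h : Dom Λ (RR true) i x then φ (ψ ⟨x, h⟩).1 else (Λ.base, 0), ?_, ?_, ?_,
    ?_⟩
  · intro f x hx
    refine ⟨hx, fun m => ?_⟩
    let x1 : CC KK RR i true := ⟨x, f, hx⟩
    have h1 : S Λ (RR false) i f (ψ x1).1 := (hψS f x1).1 hx
    obtain ⟨y, h2, h3⟩ := (hstab f _ h1).2 m
    obtain ⟨y', h4, -⟩ := hstep _ _ _ _ _ _ (hψ x1 x1).symm ⟨y, _, h2⟩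
    have h5 := (K2 _ _ _ _ _ _ h4)
    refine ⟨y'.1, (h5.atoms.1 (some _)).1 h2, ?_⟩
    have h6 := h5.atoms.1 none
    have h7 := h5.atoms.2.1 none
    rcases h3 with ⟨h8, h9⟩ | ⟨h8, h9⟩
    · exact Or.inl ⟨h8, h6.1 h9⟩
    · exact Or.inr ⟨h8, h7.1 h9⟩
  · intro f x hx
    have h : Dom Λ (RR true) i x := ⟨f, hx⟩
    simp only [dif_pos h]
    exact hφl f _ ((hψS f ⟨x, h⟩).1 hx)
  · intro x y hx hy h
    simp only [dif_pos hx, dif_pos hy] at h
    have h1 : ψ ⟨x, hx⟩ = ψ ⟨y, hy⟩ := Subtype.ext (hφi _ _ (ψ ⟨x, hx⟩).2 (ψ ⟨y, hy⟩).2 h)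
    exact congrArg Subtype.val (hψi h1)
  · intro f m x y h1 hx hy h2
    have h : Dom Λ (RR true) i x := ⟨f, hx⟩
    have h' : Dom Λ (RR true) i y := ⟨_, hy⟩
    simp only [dif_pos h, dif_pos h']
    refine hφe f m _ _ h1 ((hψS f ⟨x, h⟩).1 hx) ((hψS _ ⟨y, h'⟩).1 hy) ?_
    exact ((K2 _ _ _ _ _ _ (hψ ⟨x, h⟩ ⟨y, h'⟩)).atoms.1 none).1 h2
  · have h1 : Nat.card (CC KK RR i true) ≤ Nat.card (CC KK RR i false) :=
      Nat.card_le_card_of_injective ψ hψi
    have h2 : Nat.card {x // Dom Λ (RR true) i x} = Nat.card (CC KK RR i true) := rfl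
    have h3 : Nat.card {x // Dom Λ (RR false) i x} = Nat.card (CC KK RR i false) := rfl
    omega

end main

end JInv

open JInv in
theorem prfInv (hcat : S_cat) (hblocks : S_blocks) : S_inv := by
  intro Λ hconn V hsign
  set N := Nat.card (Λ.L × ZMod 3) with hN
  refine ⟨N ^ 4 + 3 + (2 * N + 1), fun K K' R R' a b a' b' h ⟨i, hi⟩ => ⟨i, ?_⟩⟩
  have hiN : i ≤ N := by
    obtain ⟨-, φ, -, -, -, h1⟩ := hi
    omega
  let KK : Bool → Type := fun b => match b with
    | false => K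
    | true => K'
  let RR : ∀ b, Option Λ.L → KK b → KK b → Prop := fun b => match b with
    | false => R
    | true => R'
  have hB : Bis (BR i (RR false)) (BR i (RR true)) (N ^ 4 + 3) a b a' b' :=
    bis_br i (N ^ 4 + 3) (h.mono (by omega))
  have hbad : Bad (RR false) V i := hi
  have hbad' := hbad
  obtain ⟨hstab, φ, hφl, hφi, hφe, hcard⟩ := hbad'
  have hL := Λ.fin
  have hfinC : Finite (CC KK RR i false) :=
    Finite.of_injective (fun x : CC KK RR i false => φ x.1)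
      fun x y h => Subtype.ext (hφi _ _ x.2 y.2 h)
  have hcC : Nat.card (CC KK RR i false) ≤ N :=
    Nat.card_le_card_of_injective (fun x : CC KK RR i false => φ x.1)
      fun x y h => Subtype.ext (hφi _ _ x.2 y.2 h)
  have hc4 : Nat.card ((CC KK RR i false × CC KK RR i false) ×
      (CC KK RR i false × CC KK RR i false)) ≤ N ^ 4 := by
    rw [Nat.card_prod, Nat.card_prod]
    calc _ ≤ (N * N) * (N * N) := Nat.mul_le_mul (Nat.mul_le_mul hcC hcC) (Nat.mul_le_mul hcC hcC)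
      _ = N ^ 4 := by ring
  obtain ⟨j, hj, hst⟩ := stab (fun j => {q : (CC KK RR i false × CC KK RR i false) ×
      (CC KK RR i false × CC KK RR i false) | Bis (BR i (RR false)) (BR i (RR false)) j
        q.1.1.1 q.1.2.1 q.2.1.1 q.2.2.1}) (fun j q hq => hq.mono (by omega)) hc4
  refine bad_of (KK := KK) (RR := RR) (j := j) hcat hblocks hconn hsign hbad
    (fun x y x' y' h1 => hst (show ((x, y), (x', y')) ∈ _ from h1)) ?_
  rintro (_ | _) x y
  · exact ⟨(x, y), bis_refl _ _ _ _⟩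
  · have h1 : Bis (BR i (RR true)) (BR i (RR false)) (j + 1 + 2) a' b' a b :=
      (hB.mono (by omega)).flip
    obtain ⟨x', y', h2⟩ := h1.pair x.1 y.1
    exact ⟨(⟨x', dom_of (KK := KK) (RR := RR) (b := true) (b' := false) h2.swap x.2⟩,
      ⟨y', dom_of (KK := KK) (RR := RR) (b := true) (b' := false) h2 y.2⟩), h2.flip⟩

end Pool.Agent.Work.MP_3f6cab_lc.F22
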