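import Pool.Agent.Work.MP_3f6cab_lc.F22.Lab

set_option autoImplicit false

namespace Pool.Agent.Work.MP_3f6cab_lc.F22

namespace JMono

variable {Λ : Lab} {K K' : Type} {R : Option Λ.L → K → K → Prop}
  {R' : Option Λ.L → K' → K' → Prop}

theorem S_map (e : K ↪ K') (hR : ∀ i x y, R i x y → R' i (e x) (e y)) :
    ∀ (i : ℕ) (f : Λ.L) (x : K), S Λ R i f x → S Λ R' i f (e x) := by
  intro i
  induction i with
  | zero =>
    intro f x h
    exact hR _ _ _ h
  | succ i ih =>
    intro f x h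
    refine ⟨ih f x h.1, fun m => ?_⟩
    obtain ⟨y, hy, hxy⟩ := h.2 m
    refine ⟨e y, ih _ y hy, ?_⟩
    rcases hxy with ⟨h1, h2⟩ | ⟨h1, h2⟩
    · exact Or.inl ⟨h1, hR _ _ _ h2⟩
    · exact Or.inr ⟨h1, hR _ _ _ h2⟩

theorem S_anti {i j : ℕ} (hij : i ≤ j) (f : Λ.L) (x : K) (h : S Λ R j f x) : S Λ R i f x := by
  induction j, hij using Nat.le_induction with
  | base => exact h
  | succ j _ ih => exact ih h.1

theorem card_eq (i : ℕ) : Nat.card {x // Dom Λ R i x} = Set.ncard {x | Dom Λ R i x} :=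
  Nat.card_coe_set_eq {x | Dom Λ R i x}

end JMono

open JMono

theorem prfMono : S_mono := by
  intro Λ V K K' e R R' hR hN
  obtain ⟨i', _, φ', h1, h2, h3, h4⟩ := hN
  have := Λ.fin
  have hmap : ∀ i, i' ≤ i → ∀ f x, S Λ R i f x → S Λ R' i' f (e x) := fun i hi f x h =>
    S_anti hi f (e x) (S_map e hR i f x h)
  have hdom : ∀ i, i' ≤ i → ∀ x, Dom Λ R i x → Dom Λ R' i' (e x) := by
    rintro i hi x ⟨f, hf⟩
    exact ⟨f, hmap i hi f x hf⟩
  have hfin' : {x | Dom Λ R' i' x}.Finite :=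
    Set.Finite.of_injOn (f := φ') (t := Set.univ) (fun _ _ => Set.mem_univ _)
      (fun x hx y hy hxy => h2 x y hx hy hxy) Set.finite_univ
  have hfin : ∀ i, i' ≤ i → {x | Dom Λ R i x}.Finite := fun i hi =>
    Set.Finite.of_injOn (f := e) (t := {x | Dom Λ R' i' x}) (fun x hx => hdom i hi x hx)
      (fun x _ y _ hxy => e.injective hxy) hfin'
  have hle : Set.ncard {x | Dom Λ R i' x} ≤ Set.ncard {x | Dom Λ R' i' x} :=
    Set.ncard_le_ncard_of_injOn e (fun x hx => hdom i' le_rfl x hx)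
      (fun x _ y _ hxy => e.injective hxy) hfin'
  rw [card_eq] at h4
  have main : ∀ (n i : ℕ), i' ≤ i → Set.ncard {x | Dom Λ R i x} = n →
      i + n ≤ Nat.card (Λ.L × ZMod 3) → ∃ j, i' ≤ j ∧ Stable Λ R j ∧
        j + Set.ncard {x | Dom Λ R j x} ≤ Nat.card (Λ.L × ZMod 3) := by
    intro n
    induction n using Nat.strong_induction_on with
    | _ n ih =>
      intro i hi hc hn
      by_cases hs : Stable Λ R i
      · exact ⟨i, hi, hs, by rw [hc]; exact hn⟩
      · unfold Stable at hs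
        push Not at hs
        obtain ⟨f, x, hfx, hfx'⟩ := hs
        have hlt : Set.ncard {x | Dom Λ R (i + 1) x} < Set.ncard {x | Dom Λ R i x} := by
          apply Set.ncard_lt_ncard _ (hfin i hi)
          refine (Set.ssubset_iff_of_subset ?_).2 ⟨x, ⟨f, hfx⟩, ?_⟩
          · rintro y ⟨f1, hy⟩
            exact ⟨f1, hy.1⟩
          · rintro ⟨f1, hf1⟩
            have e1 := h1 f1 (e x) (hmap i hi f1 x hf1.1)
            have e2 := h1 f (e x) (hmap i hi f x hfx)
            rw [e1] at e2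
            rw [e2] at hf1
            exact hfx' hf1
        exact ih (Set.ncard {x | Dom Λ R (i + 1) x}) (by omega) (i + 1) (by omega) rfl (by omega)
  obtain ⟨j, hj, hst, hcard⟩ := main _ i' le_rfl rfl (by omega)
  refine ⟨j, hst, fun x => φ' (e x), ?_, ?_, ?_, ?_⟩
  · intro f x h
    exact h1 f (e x) (hmap j hj f x h)
  · intro x y hx hy hxy
    exact e.injective (h2 (e x) (e y) (hdom j hj x hx) (hdom j hj y hy) hxy)
  · intro f m x y hside hx hy hxy
    exact h3 f m (e x) (e y) hside (hmap j hj f x hx) (hmap j hj _ y hy) (hR _ _ _ hxy)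
  · rw [card_eq]
    exact hcard

end Pool.Agent.Work.MP_3f6cab_lc.F22
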