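import Pool.Agent.Work.MP_3f6cab_lc.F22.Lab

set_option autoImplicit false

/-!
# Closed short walks have trivial transport
-/

namespace Pool.Agent.Work.MP_3f6cab_lc.F22

theorem act_append (Λ : Lab) (u v : List (Fin 6)) (f : Λ.L) :
    Λ.act (u ++ v) f = Λ.act v (Λ.act u f) := by
  induction u generalizing f with
  | nil => rfl
  | cons i u ih => exact ih (Λ.s i f)

theorem tr_append {Λ : Lab} (V : Volt Λ) (u v : List (Fin 6)) (f : Λ.L) (x : ZMod 3) :
    V.tr (u ++ v) f x = V.tr v (Λ.act u f) (V.tr u f x) := by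
  induction u generalizing f x with
  | nil => rfl
  | cons i u ih => exact ih (Λ.s i f) (V.m f i x)

theorem act_reverse (Λ : Lab) (w : List (Fin 6)) (f : Λ.L) :
    Λ.act w.reverse (Λ.act w f) = f := by
  induction w generalizing f with
  | nil => rfl
  | cons i w ih =>
    rw [List.reverse_cons, act_append]
    show Λ.act [i] (Λ.act w.reverse (Λ.act w (Λ.s i f))) = f
    rw [ih]
    exact Λ.ss i f

theorem tr_reverse {Λ : Lab} (V : Volt Λ) (w : List (Fin 6)) (f : Λ.L) (x : ZMod 3) :
    V.tr w.reverse (Λ.act w f) (V.tr w f x) = x := by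
  induction w generalizing f x with
  | nil => rfl
  | cons i w ih =>
    rw [List.reverse_cons, tr_append]
    show V.tr [i] (Λ.act w.reverse (Λ.act w (Λ.s i f)))
      (V.tr w.reverse (Λ.act w (Λ.s i f)) (V.tr w (Λ.s i f) (V.m f i x))) = x
    rw [ih, act_reverse]
    exact V.m_m f i x

namespace JRed

theorem exists_back (w : List (Fin 6)) (h : ¬ Red w) : ∃ u i v, w = u ++ i :: i :: v := by
  induction w with
  | nil => exact absurd trivial h
  | cons a w ih =>
    cases w with
    | nil => exact absurd trivial h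
    | cons b w =>
      by_cases hab : a = b
      · exact ⟨[], a, w, by rw [hab]; rfl⟩
      · have h1 : ¬ Red (b :: w) := fun h2 => h ⟨hab, h2⟩
        obtain ⟨u, i, v, huv⟩ := ih h1
        exact ⟨a :: u, i, v, by rw [huv]; rfl⟩

theorem act_back (Λ : Lab) (u v : List (Fin 6)) (i : Fin 6) (f : Λ.L) :
    Λ.act (u ++ i :: i :: v) f = Λ.act (u ++ v) f := by
  rw [act_append, act_append]
  show Λ.act v (Λ.s i (Λ.s i (Λ.act u f))) = _
  rw [Λ.ss]

theorem tr_back {Λ : Lab} (V : Volt Λ) (u v : List (Fin 6)) (i : Fin 6) (f : Λ.L) (x : ZMod 3) :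
    V.tr (u ++ i :: i :: v) f x = V.tr (u ++ v) f x := by
  rw [tr_append, tr_append]
  show V.tr v (Λ.s i (Λ.s i (Λ.act u f)))
    (V.m (Λ.s i (Λ.act u f)) i (V.m (Λ.act u f) i (V.tr u f x))) = _
  rw [V.m_m, Λ.ss]

end JRed

open JRed in
theorem prfRed : S_red := by
  intro Λ g hg V w
  induction hn : w.length using Nat.strong_induction_on generalizing w with
  | _ n ih =>
    intro f hl hf x
    by_cases hw : w = []
    · rw [hw]; rfl
    · by_cases hr : Red w
      · exact absurd hf (hg w f hr hw (by omega))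
      · obtain ⟨u, i, v, rfl⟩ := exists_back w hr
        rw [tr_back]
        rw [act_back] at hf
        simp only [List.length_append, List.length_cons] at hn
        exact ih (u ++ v).length (by rw [List.length_append]; omega) (u ++ v) rfl f
          (by rw [List.length_append]; omega) hf x

theorem tr_unique {Λ : Lab} {g : ℕ} (hg : Λ.Girth g) (V : Volt Λ) (w w' : List (Fin 6))
    (f : Λ.L) (h : Λ.act w f = Λ.act w' f) (hl : w.length + w'.length ≤ g) (x : ZMod 3) :
    V.tr w f x = V.tr w' f x := by
  have h1 : V.tr (w ++ w'.reverse) f x = x := by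
    refine prfRed Λ g hg V (w ++ w'.reverse) f ?_ ?_ x
    · rw [List.length_append, List.length_reverse]; exact hl
    · rw [act_append, h, act_reverse]
  rw [tr_append, h] at h1
  have h2 : ∀ z, V.tr w' f (V.tr w'.reverse (Λ.act w' f) z) = z := by
    intro z
    have h3 := tr_reverse V w'.reverse (Λ.act w' f) z
    rwa [List.reverse_reverse, act_reverse] at h3
  have h4 := h2 (V.tr w f x)
  rw [h1] at h4
  exact h4.symm

end Pool.Agent.Work.MP_3f6cab_lc.F22
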