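import Pool.Agent.Work.MP_3f6cab_lc.F22.Lab
import Pool.Agent.Work.MP_3f6cab_lc.F22.Red

set_option autoImplicit false

/-!
# Colourings through given pairs
-/

namespace Pool.Agent.Work.MP_3f6cab_lc.F22

namespace JSec

variable (Λ : Lab)

theorem triv_tr (w : List (Fin 6)) (f : Λ.L) (x : ZMod 3) : (Volt.triv Λ).tr w f x = x := by
  induction w generalizing f x with
  | nil => rfl
  | cons i w ih =>
    show (Volt.triv Λ).tr w (Λ.s i f) ((Volt.triv Λ).m f i x) = x
    rw [Volt.triv_m, ih]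

/-- the colouring given by the sides -/
def b (f : Λ.L) : ZMod 3 := if Λ.side f = true then 1 else 0

theorem b_ne_two (f : Λ.L) : b Λ f ≠ 2 := by
  unfold b
  split_ifs <;> decide

theorem b_s (f : Λ.L) (i : Fin 6) : b Λ (Λ.s i f) ≠ b Λ f := by
  unfold b
  rw [Λ.side_s]
  cases Λ.side f <;> simp

open Classical in
/-- the colouring with the colour `2` on `P` -/
noncomputable def col (P : Λ.L → Prop) (f : Λ.L) : ZMod 3 := if P f then 2 else b Λ f

theorem col_pos {P : Λ.L → Prop} {f : Λ.L} (h : P f) : col Λ P f = 2 := if_pos h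

theorem col_neg {P : Λ.L → Prop} {f : Λ.L} (h : ¬ P f) : col Λ P f = b Λ f := if_neg h

theorem col_sol {P : Λ.L → Prop} (hP : ∀ f i, P f → ¬ P (Λ.s i f)) :
    (Volt.triv Λ).Sol (col Λ P) := by
  intro f i
  rw [Volt.triv_m]
  by_cases h : P f
  · rw [col_pos Λ h, col_neg Λ (hP f i h)]
    exact b_ne_two Λ _
  · by_cases h' : P (Λ.s i f)
    · rw [col_pos Λ h', col_neg Λ h]
      exact (b_ne_two Λ _).symm
    · rw [col_neg Λ h, col_neg Λ h']
      exact b_s Λ f i

theorem s_ne (f : Λ.L) (i : Fin 6) : Λ.s i f ≠ f := by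
  intro h
  have h1 := Λ.side_s i f
  rw [h] at h1
  cases h2 : Λ.side f <;> rw [h2] at h1 <;> simp at h1

end JSec

open JSec in
theorem prfSec (hr : S_red) : S_sec := by
  intro Λ n hn hg V u v hz
  obtain ⟨hz1, hz2⟩ := hz
  by_cases h1 : u.1 = v.1
  · refine ⟨col Λ (fun _ => False), col_sol Λ (fun _ _ h => h.elim), rfl, rfl, ?_⟩
    intro w hw hc
    rw [triv_tr]
    have h2 := hr Λ (2 * n + 2) hg V w u.1 (by omega) (by rw [hc, h1]) u.2
    rw [h2]
    have h3 : u.2 = v.2 := hz1 h1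
    simp only [h1, h3]
  by_cases h2 : ∃ i, v.1 = Λ.s i u.1
  · obtain ⟨i, hi⟩ := h2
    refine ⟨col Λ (fun _ => False), col_sol Λ (fun _ _ h => h.elim), rfl, rfl, ?_⟩
    intro w hw hc
    rw [triv_tr]
    have h3 : V.tr w u.1 u.2 = V.tr [i] u.1 u.2 := by
      refine tr_unique hg V w [i] u.1 ?_ ?_ u.2
      · rw [hc]; exact hi
      · simp only [List.length_cons, List.length_nil]; omega
    have h4 : V.tr [i] u.1 u.2 = V.m u.1 i u.2 := rfl
    rw [h3, h4]
    constructor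
    · intro h
      exact absurd h.symm (hz2 i hi)
    · intro h
      exfalso
      have h5 : col Λ (fun _ => False) u.1 = col Λ (fun _ => False) v.1 := h
      rw [col_neg Λ (fun h => h), col_neg Λ (fun h => h), hi] at h5
      exact b_s Λ u.1 i h5.symm
  have h2' : ∀ i, Λ.s i u.1 ≠ v.1 := fun i h => h2 ⟨i, h.symm⟩
  have h2'' : ∀ i, Λ.s i v.1 ≠ u.1 := fun i h => h2 ⟨i, by rw [← h, Λ.ss]⟩
  by_cases h3 : ∃ w : List (Fin 6), w.length ≤ n ∧ Λ.act w u.1 = v.1 ∧ V.tr w u.1 u.2 = v.2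
  · obtain ⟨w0, hw0, hc0, ht0⟩ := h3
    refine ⟨col Λ (fun f => f = u.1 ∨ f = v.1), col_sol Λ ?_, rfl, rfl, ?_⟩
    · rintro f i (rfl | rfl) (h | h)
      · exact s_ne Λ _ i h
      · exact h2' i h
      · exact h2'' i h
      · exact s_ne Λ _ i h
    · intro w hw hc
      rw [triv_tr]
      have h4 : V.tr w u.1 u.2 = V.tr w0 u.1 u.2 :=
        tr_unique hg V w w0 u.1 (by rw [hc, hc0]) (by omega) u.2
      rw [h4]
      refine iff_of_true ht0 ?_
      show col Λ (fun f => f = u.1 ∨ f = v.1) u.1 = col Λ (fun f => f = u.1 ∨ f = v.1) v.1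
      rw [col_pos Λ (Or.inl rfl), col_pos Λ (Or.inr rfl)]
  · refine ⟨col Λ (fun f => f = u.1), col_sol Λ ?_, rfl, rfl, ?_⟩
    · rintro f i rfl h
      exact s_ne Λ _ i h
    · intro w hw hc
      rw [triv_tr]
      refine iff_of_false (fun h => h3 ⟨w, hw, hc, h⟩) ?_
      show ¬ col Λ (fun f => f = u.1) u.1 = col Λ (fun f => f = u.1) v.1
      have e1 : col Λ (fun f => f = u.1) u.1 = 2 := col_pos Λ (P := fun f => f = u.1) rfl
      have e2 : col Λ (fun f => f = u.1) v.1 = b Λ v.1 :=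
        col_neg Λ (P := fun f => f = u.1) (fun h => h1 h.symm)
      rw [e1, e2]
      exact (b_ne_two Λ _).symm

end Pool.Agent.Work.MP_3f6cab_lc.F22
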