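import Pool.Agent.Work.MP_3f6cab_lc.F22.Lab

/-!
# Label graphs of large girth
-/

set_option autoImplicit false

namespace Pool.Agent.Work.MP_3f6cab_lc.F22

namespace JWords

theorem red_tail {i : Fin 6} {w : List (Fin 6)} (h : Red (i :: w)) : Red w := by
  cases w with
  | nil => trivial
  | cons j w => exact h.2

/-- the step on words -/
def ai (g : ℕ) (i : Fin 6) : List (Fin 6) → List (Fin 6)
  | [] => if 0 < g then [i] else []
  | j :: w => if i = j then w else if w.length + 1 < g then i :: j :: w else j :: w

theorem ai_nil (g : ℕ) (i : Fin 6) : ai g i [] = if 0 < g then [i] else [] := rfl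

theorem ai_cons (g : ℕ) (i j : Fin 6) (w : List (Fin 6)) : ai g i (j :: w) =
    if i = j then w else if w.length + 1 < g then i :: j :: w else j :: w := rfl

theorem ai_red (g : ℕ) (i : Fin 6) {w : List (Fin 6)} (h : Red w) : Red (ai g i w) := by
  cases w with
  | nil =>
    rw [ai_nil]
    split_ifs
    · trivial
    · trivial
  | cons j w =>
    rw [ai_cons]
    split_ifs with h1 h2
    · exact red_tail h
    · exact ⟨h1, h⟩
    · exact h

theorem ai_len (g : ℕ) (i : Fin 6) {w : List (Fin 6)} (h : w.length ≤ g) :
    (ai g i w).length ≤ g := by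
  cases w with
  | nil =>
    rw [ai_nil]
    split_ifs with h1
    · exact h1
    · exact h
  | cons j w =>
    rw [ai_cons]
    rw [List.length_cons] at h
    split_ifs with h1 h2
    · omega
    · rw [List.length_cons, List.length_cons]
      omega
    · rw [List.length_cons]
      exact h

theorem ai_ai (g : ℕ) (i : Fin 6) {w : List (Fin 6)} (h : Red w) (hl : w.length ≤ g) :
    ai g i (ai g i w) = w := by
  cases w with
  | nil =>
    by_cases h1 : 0 < g
    · simp [ai, h1]
    · simp [ai, h1]
  | cons j w =>
    rw [List.length_cons] at hl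
    by_cases h1 : i = j
    · subst h1
      cases w with
      | nil =>
        have h2 : 0 < g := by
          simp only [List.length_nil] at hl
          omega
        simp [ai, h2]
      | cons k w =>
        have h3 : i ≠ k := h.1
        have h4 : w.length + 1 < g := by
          simp only [List.length_cons] at hl
          omega
        simp [ai, h3, h4]
    · by_cases h2 : w.length + 1 < g
      · simp [ai, h1, h2]
      · simp [ai, h1, h2]

/-- reduced words of bounded length -/
def T (g : ℕ) : Type := {w : List (Fin 6) // Red w ∧ w.length ≤ g}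

theorem fin_T (g : ℕ) : Finite (T g) := by
  have h : Finite {w : List (Fin 6) // w.length ≤ g} := List.finite_length_le (Fin 6) g
  refine Finite.of_injective (β := {w : List (Fin 6) // w.length ≤ g})
    (fun w : T g => ⟨w.1, w.2.2⟩) (fun u v huv => ?_)
  exact Subtype.ext (Subtype.mk.inj huv)

/-- the involutions -/
def a (g : ℕ) (i : Fin 6) : Equiv.Perm (T g) where
  toFun w := ⟨ai g i w.1, ai_red g i w.2.1, ai_len g i w.2.2⟩
  invFun w := ⟨ai g i w.1, ai_red g i w.2.1, ai_len g i w.2.2⟩
  left_inv w := Subtype.ext (ai_ai g i w.2.1 w.2.2)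
  right_inv w := Subtype.ext (ai_ai g i w.2.1 w.2.2)

theorem a_val (g : ℕ) (i : Fin 6) (w : T g) : (a g i w).1 = ai g i w.1 := rfl

theorem a_a (g : ℕ) (i : Fin 6) : a g i * a g i = 1 := by
  ext w
  exact Subtype.ext (ai_ai g i w.2.1 w.2.2)

/-- the label graph before the restriction -/
def X (g : ℕ) : Lab where
  L := Equiv.Perm (T g) × Bool
  fin := by
    have := fin_T g
    infer_instance
  side f := f.2
  s i f := (a g i * f.1, !f.2)
  ss i f := by
    show (a g i * (a g i * f.1), !(!f.2)) = f
    rw [← mul_assoc, a_a, one_mul, Bool.not_not]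
  side_s _ _ := rfl
  base := (1, false)
  side_base := rfl

/-- the product along a word -/
def A (g : ℕ) : List (Fin 6) → Equiv.Perm (T g)
  | [] => 1
  | i :: w => A g w * a g i

theorem act_fst (g : ℕ) (w : List (Fin 6)) (f : (X g).L) :
    ((X g).act w f).1 = A g w * f.1 := by
  induction w generalizing f with
  | nil => exact (one_mul _).symm
  | cons i w ih =>
    show ((X g).act w ((X g).s i f)).1 = A g w * a g i * f.1
    rw [ih, mul_assoc]
    rfl

theorem A_val (g : ℕ) (w : List (Fin 6)) (hw : Red w) (u : T g)
    (h : ∀ i w', w = i :: w' → ∀ j u', u.1 = j :: u' → i ≠ j)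
    (hl : w.length + u.1.length ≤ g) : (A g w u).1 = w.reverse ++ u.1 := by
  induction w generalizing u with
  | nil => rfl
  | cons i w ih =>
    rw [List.length_cons] at hl
    have h1 : ai g i u.1 = i :: u.1 := by
      cases hu : u.1 with
      | nil =>
        have h2 : 0 < g := by omega
        simp [ai, h2]
      | cons j u' =>
        have h3 : i ≠ j := h i w rfl j u' hu
        have h4 : u'.length + 1 < g := by
          rw [hu, List.length_cons] at hl
          omega
        simp [ai, h3, h4]
    have h5 : (a g i u).1 = i :: u.1 := by rw [a_val, h1]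
    have h6 := ih (red_tail hw) (a g i u) (by
      intro j w' hj k u' hk
      rw [h5] at hk
      obtain ⟨rfl, -⟩ := List.cons.inj hk
      subst hj
      exact fun h7 => hw.1 h7.symm) (by
      rw [h5, List.length_cons]
      omega)
    show (A g w (a g i u)).1 = (i :: w).reverse ++ u.1
    rw [h6, h5, List.reverse_cons, List.append_assoc]
    rfl

theorem girth_X (g : ℕ) : (X g).Girth g := by
  intro w f hw hne hl h
  have h1 := act_fst g w f
  rw [h] at h1
  have h2 : A g w = 1 := mul_eq_right.1 h1.symm
  have h3 := A_val g w hw ⟨[], trivial, Nat.zero_le g⟩ (by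
    intro i w' _ j u' hu
    exact absurd hu (by simp)) (by simpa using hl)
  rw [h2] at h3
  have h4 : ([] : List (Fin 6)) = w.reverse ++ [] := h3
  rw [List.append_nil] at h4
  exact hne (List.reverse_eq_nil_iff.1 h4.symm)

theorem act_append (Λ : Lab) (w w' : List (Fin 6)) (f : Λ.L) :
    Λ.act (w ++ w') f = Λ.act w' (Λ.act w f) := by
  induction w generalizing f with
  | nil => rfl
  | cons i w ih => exact ih (Λ.s i f)

/-- the component of the base -/
def comp (Λ : Lab) : Lab where
  L := {f : Λ.L // ∃ w, Λ.act w Λ.base = f}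
  fin := by
    have := Λ.fin
    infer_instance
  side f := Λ.side f.1
  s i f := ⟨Λ.s i f.1, by
    obtain ⟨w, hw⟩ := f.2
    refine ⟨w ++ [i], ?_⟩
    rw [act_append, hw]
    rfl⟩
  ss i f := Subtype.ext (Λ.ss i f.1)
  side_s i f := Λ.side_s i f.1
  base := ⟨Λ.base, [], rfl⟩
  side_base := Λ.side_base

theorem comp_act (Λ : Lab) (w : List (Fin 6)) (f : (comp Λ).L) :
    ((comp Λ).act w f).1 = Λ.act w f.1 := by
  induction w generalizing f with
  | nil => rfl
  | cons i w ih => exact ih ((comp Λ).s i f)

end JWords

open JWords in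
theorem prfWords : S_words := by
  intro g
  refine ⟨comp (X g), ?_, ?_⟩
  · intro w f hw hne hl h
    refine girth_X g w f.1 hw hne hl ?_
    rw [← comp_act, h]
  · intro f
    obtain ⟨w, hw⟩ := f.2
    exact ⟨w, Subtype.ext ((comp_act _ w _).trans hw)⟩

end Pool.Agent.Work.MP_3f6cab_lc.F22
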