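import Pool.Agent.Work.MP_3f6cab_lc.F22.Main
import Pool.Agent.Work.MP_3f6cab_lc.F22.Inv
import Pool.Agent.Work.MP_3f6cab_lc.F22.Words
import Pool.Agent.Work.MP_3f6cab_lc.F22.Count
import Pool.Agent.Work.MP_3f6cab_lc.F22.Red
import Pool.Agent.Work.MP_3f6cab_lc.F22.Ef
import Pool.Agent.Work.MP_3f6cab_lc.F22.Sec
import Pool.Agent.Work.MP_3f6cab_lc.F22.Mono
import Pool.Agent.Work.MP_3f6cab_lc.F22.FG
import Pool.Agent.Work.MP_3f6cab_lc.F22.Cat
import Pool.Agent.Work.MP_3f6cab_lc.F22.Core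
import Pool.Agent.Work.MP_3f6cab_lc.F22.Blocks

/-!
# The main theorem
-/

set_option autoImplicit false

namespace Pool.Agent.Work.MP_3f6cab_lc.F22

theorem final {O : Set (Σ k, Op k)} (hfin : O.Finite)
    (hO : ∀ o ∈ O, ProperSafe o.2 ∧ FODefinable o.2) : ∃ o ∈ WeakSafeTRA, ¬ Definable O o.2 :=
  main prfWords prfCount (prfSec prfRed) prfMono prfF prfG
    (prfInv prfCat (prfBlocks prfCore)) hfin hO

end Pool.Agent.Work.MP_3f6cab_lc.F22
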