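import Pool.Agent.Work.MP_3f6cab_lc.F22.Clo
import Pool.Agent.Work.MP_3f6cab_lc.F22.EfFO

/-!
# The lower bound: terms over finitely many operations are true on the large structure
-/

set_option autoImplicit false

namespace Pool.Agent.Work.MP_3f6cab_lc.F22

theorem Lab.Girth.mono {Λ : Lab} {g g' : ℕ} (h : Λ.Girth g) (hg : g' ≤ g) : Λ.Girth g' :=
  fun w f h1 h2 h3 => h w f h1 h2 (h3.trans hg)

theorem zr_iff {Λ : Lab} {V W : Volt Λ} {u v u' v' : Λ.L × ZMod 3} (h : Q V W 1 u v u' v') :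
    Zr V u v ↔ Zr W u' v' := by
  obtain ⟨h1, h2, h3⟩ := h
  unfold Zr
  rw [← h1, ← h2]
  refine and_congr ?_ ?_
  · constructor
    · intro h4 h5
      exact (h3 [] (by simp) h5).1 (h4 h5)
    · intro h4 h5
      exact (h3 [] (by simp) h5).2 (h4 h5)
  · refine forall_congr' fun i => ?_
    constructor
    · intro h4 h5 h6
      refine h4 h5 ?_
      have h7 := (h3 [i] (by simp) h5.symm).2
      simp only [Volt.tr] at h7
      exact (h7 (by rw [← h1]; exact h6.symm)).symm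
    · intro h4 h5 h6
      refine h4 h5 ?_
      have h7 := (h3 [i] (by simp) h5.symm).1
      simp only [Volt.tr] at h7
      have h8 := h7 h6.symm
      rw [← h1] at h8
      exact h8.symm

/-- The lifted relations. -/
def lift {Λ : Lab} (V : Volt Λ) {n : ℕ} (X : Fin n → Λ.L → Λ.L → Prop) (i : Fin n)
    (u v : Λ.L × ZMod 3) : Prop := X i u.1 v.1 ∧ Zr V u v

theorem gate (hs : S_sec) {Λ : Lab} {j : ℕ} (hg : Λ.Girth (2 ^ (j + 1) + 2))
    (V : Volt Λ) {n : ℕ} {f : Op n} (hf : ProperSafe f) {φ : Fml (Fin n)} (ht : qd φ ≤ j)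
    (htf : ∀ (A : Type) (h : Finite A) (R : Fin n → A → A → Prop) (v : ℕ → A),
      f A h R (v 0) (v 1) ↔ φ.Sat R v) (X : Fin n → Λ.L → Λ.L → Prop)
    (hL : Finite Λ.L) (hLZ : Finite (Λ.L × ZMod 3)) (u v : Λ.L × ZMod 3)
    (h : f Λ.L hL X u.1 v.1) (hz : Zr V u v) : f (Λ.L × ZMod 3) hLZ (lift V X) u v := by
  have h2j : 1 ≤ 2 ^ j := Nat.one_le_two_pow
  have hpow : 2 ^ (j + 1) = 2 * 2 ^ j := by ring
  obtain ⟨c, hc, hq⟩ := hs Λ (2 ^ j) h2j (hg.mono (by omega)) V u v hz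
  let e : Λ.L ↪ Λ.L × ZMod 3 := ⟨fun x => (x, c x), fun x y hxy => (Prod.ext_iff.1 hxy).1⟩
  have h1 := hf Λ.L (Λ.L × ZMod 3) hL hLZ e X (lift (Volt.triv Λ) X) (fun i x y hxy =>
    ⟨hxy, fun h3 => by
      have h4 : x = y := h3
      show c x = c y
      rw [h4], fun k hk => by
      have h4 : y = Λ.s k x := hk
      show c y ≠ (Volt.triv Λ).m x k (c x)
      rw [h4]
      exact hc x k⟩) ⟨(Λ.base, c Λ.base + 1), fun x hx => by
        obtain ⟨h3, h4⟩ := Prod.ext_iff.1 hx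
        have h5 : x = Λ.base := h3
        have h6 : c x = c Λ.base + 1 := h4
        rw [h5] at h6
        exact absurd h6 (by simp)⟩ u.1 v.1 h
  have e1 := htf (Λ.L × ZMod 3) hLZ (lift (Volt.triv Λ) X) fun k => if k = 0 then e u.1 else e v.1
  have e2 := htf (Λ.L × ZMod 3) hLZ (lift V X) fun k => if k = 0 then u else v
  simp only [if_true, one_ne_zero, if_false] at e1 e2
  rw [e1] at h1
  rw [e2]
  have hgj : Λ.Girth (2 ^ j) := hg.mono (by omega)
  refine (ef_fo φ j ht (hg.mono (by omega)) V (Volt.triv Λ) (lift V X)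
    (lift (Volt.triv Λ) X) ?_ _ _ ?_).2 h1
  · intro i u v u' v' h3
    unfold lift
    rw [zr_iff h3, h3.1, h3.2.1]
  · intro a b
    have q1 : Q V (Volt.triv Λ) (2 ^ j) u u (e u.1) (e u.1) :=
      JEfFO.Q_self hgj V _ le_rfl rfl
    have q2 : Q V (Volt.triv Λ) (2 ^ j) v v (e v.1) (e v.1) :=
      JEfFO.Q_self hgj V _ le_rfl rfl
    have q3 : Q V (Volt.triv Λ) (2 ^ j) u v (e u.1) (e v.1) := hq
    by_cases ha : a = 0
    · by_cases hb : b = 0
      · simp only [ha, hb, if_true]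
        exact q1
      · simp only [ha, hb, if_true, if_false]
        exact q3
    · by_cases hb : b = 0
      · simp only [ha, hb, if_true, if_false]
        exact JEf.Q_swap q3
      · simp only [ha, hb, if_false]
        exact q2

theorem low (hs : S_sec) {O : Set (Σ k, Op k)} (hfin : O.Finite)
    (hO : ∀ o ∈ O, ProperSafe o.2 ∧ FODefinable o.2) :
    ∃ g, ∀ (Λ : Lab), Λ.Girth g → ∀ (V : Volt Λ) (n : ℕ) (t : Term O n)
      (X : Fin n → Λ.L → Λ.L → Prop)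
      (Y : Fin n → Option (Λ.L × ZMod 3) → Option (Λ.L × ZMod 3) → Prop) (hL : Finite Λ.L)
      (hO : Finite (Option (Λ.L × ZMod 3))),
      (∀ i u v, X i u.1 v.1 → Zr V u v → Y i (some u) (some v)) →
      ∀ u v, t.eval Λ.L hL X u.1 v.1 → Zr V u v →
        t.eval (Option (Λ.L × ZMod 3)) hO Y (some u) (some v) := by
  have hb : ∀ o ∈ O, ∃ j : ℕ, ∃ φ : Fml (Fin o.1), qd φ ≤ j ∧
      ∀ (A : Type) (h : Finite A) (R : Fin o.1 → A → A → Prop) (v : ℕ → A),
        o.2 A h R (v 0) (v 1) ↔ φ.Sat R v := by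
    intro o ho
    obtain ⟨φ, hφ⟩ := (hO o ho).2
    exact ⟨qd φ, φ, le_rfl, hφ⟩
  choose! N hN using hb
  obtain ⟨j, hj⟩ : ∃ j, ∀ o ∈ O, N o ≤ j := by
    obtain ⟨K, hK⟩ := (hfin.image N).bddAbove
    exact ⟨K, fun o ho => hK (Set.mem_image_of_mem N ho)⟩
  refine ⟨2 ^ (j + 1) + 2, fun Λ hg V n t X Y hL hO' hXY => ?_⟩
  have hLZ : Finite (Λ.L × ZMod 3) := by
    have := Λ.fin
    infer_instance
  induction t with
  | rel i => exact fun u v h1 h2 => hXY i u v h1 h2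
  | app k f hf args ih =>
    intro u v h1 h2
    obtain ⟨φ, hφ, hφf⟩ := hN _ hf
    have h3 := gate hs hg V (hO _ hf).1 (hφ.trans (hj _ hf)) hφf
      (fun i => (args i).eval Λ.L hL X) hL hLZ u v h1 h2
    exact (hO _ hf).1 (Λ.L × ZMod 3) (Option (Λ.L × ZMod 3)) hLZ hO' Function.Embedding.some _ _
      (fun i x y hxy => ih i x y hxy.1 hxy.2) ⟨none, fun x => by simp⟩ u v h3

end Pool.Agent.Work.MP_3f6cab_lc.F22
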