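import Pool.Agent.Work.MP_3f6cab_lc.F22.Low

/-!
# The main theorem from its parts
-/

set_option autoImplicit false

namespace Pool.Agent.Work.MP_3f6cab_lc.F22

theorem rf_rg {Λ : Lab} (V : Volt Λ) (f : Option Λ.L) (u v : Λ.L × ZMod 3)
    (h : RF Λ f u.1 v.1) (hz : Zr V u v) : RG V f (some u) (some v) := by
  cases f with
  | some f =>
    obtain ⟨h1, h2⟩ := h
    refine ⟨⟨u.2, ?_⟩, ?_⟩
    · rw [← h1]
    · congr 1
      exact (Prod.ext (h1.trans h2.symm) (hz.1 (h1.trans h2.symm))).symm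
  | none =>
    obtain ⟨h1, i, h2⟩ := h
    refine ⟨u.1, i, u.2, v.2, h1, rfl, ?_, hz.2 i h2⟩
    rw [← h2]

theorem zr_self {Λ : Lab} (V : Volt Λ) (u : Λ.L × ZMod 3) : Zr V u u := by
  refine ⟨fun _ => rfl, fun i h => ?_⟩
  have h1 := Λ.side_s i u.1
  rw [← h] at h1
  cases h2 : Λ.side u.1 <;> simp [h2] at h1

theorem main (hw : S_words) (hc : S_count) (hs : S_sec) (hm : S_mono) (hF : S_F)
    (hG : S_G) (hi : S_inv) {O : Set (Σ k, Op k)} (hfin : O.Finite)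
    (hO : ∀ o ∈ O, ProperSafe o.2 ∧ FODefinable o.2) :
    ∃ o ∈ WeakSafeTRA, ¬ Definable O o.2 := by
  obtain ⟨g, hg⟩ := low hs hfin hO
  obtain ⟨Λ, hgirth, hconn⟩ := hw (max g 2)
  obtain ⟨V, hsol, hsign⟩ := hc Λ
  obtain ⟨r, hr⟩ := hi Λ hconn V hsign
  have hL := Λ.fin
  let e : Option Λ.L ≃ Fin (Nat.card (Option Λ.L)) := Finite.equivFin _
  let θ : Op (Nat.card (Option Λ.L)) := fun A _ R _ _ => ¬ Neg (fun f => R (e f)) V
  have hθ : (⟨_, θ⟩ : Σ k, Op k) ∈ WeakSafeTRA := by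
    refine ⟨fun A B hA hB ε P R h a b h1 h2 => h1 ?_, definable_of_d3 ?_⟩
    · exact hm Λ V A B ε _ _ (fun i x y hxy => h (e i) x y hxy) h2
    · refine d3_of_def3 (f := fun _ R _ _ => ¬ Neg (fun f => R (e f)) V) ?_
      have h1 : Def3 (fun _ R _ _ => ¬ Neg R V : GOp (Option Λ.L)) := by
        refine def3_of_bis (r := r) fun D D' R R' a b a' b' h2 h3 h4 => h3 ?_
        exact hr D' D R' R a' b' a b h2.flip h4
      exact Def3.subst h1 (g := fun f _ R x y => R (e f) x y) fun f => Def3.rel _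
  refine ⟨_, hθ, ?_⟩
  rintro ⟨t, ht⟩
  have h1 := hg Λ (hgirth.mono (le_max_left _ _)) V _ t (fun i => RF Λ (e.symm i))
    (fun i => RG V (e.symm i)) hL inferInstance (fun i u v h h' => rf_rg V _ u v h h')
    (Λ.base, 0) (Λ.base, 0)
  rw [ht, ht] at h1
  have h2 : θ Λ.L hL (fun i => RF Λ (e.symm i)) Λ.base Λ.base := by
    show ¬ Neg (fun f => RF Λ (e.symm (e f))) V
    simp only [Equiv.symm_apply_apply]
    exact hF Λ V hsol
  have h3 := h1 h2 (zr_self V _)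
  have h4 : ¬ Neg (fun f => RG V (e.symm (e f))) V := h3
  simp only [Equiv.symm_apply_apply] at h4
  exact h4 (hG Λ V (hgirth.mono (le_max_right _ _)))

end Pool.Agent.Work.MP_3f6cab_lc.F22
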