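import Pool.Agent.Work.MP_3f6cab_lc.Defs

/-!
# Operations on binary relations over finite structures and fragments of Tarski's relation algebra
-/

set_option autoImplicit false

namespace Pool.Agent.Work.MP_3f6cab_lc.F22

/-- An `n`-ary operation on binary relations over finite structures: it assigns a binary relation
on `A` to every structure with finite domain `A` and `n` binary relations. -/
def Op (n : ℕ) : Type 1 := ∀ A : Type, Finite A → (Fin n → A → A → Prop) → A → A → Prop

/-- The terms of `BRA(O)` in the relation symbols `R_0, ..., R_(n-1)`. -/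
inductive Term (O : Set (Σ k, Op k)) (n : ℕ) : Type 1
  | rel (i : Fin n) : Term O n
  | app (k : ℕ) (f : Op k) (hf : (⟨k, f⟩ : Σ k, Op k) ∈ O) (args : Fin k → Term O n) : Term O n

/-- The operation defined by a term. -/
def Term.eval {O : Set (Σ k, Op k)} {n : ℕ} : Term O n → Op n
  | .rel i => fun _ _ R => R i
  | .app _ f _ args => fun A h R => f A h fun j => (args j).eval A h R

/-- `f` is defined by some term of `BRA(O)` on all finite structures. -/
def Definable (O : Set (Σ k, Op k)) {n : ℕ} (f : Op n) : Prop :=
  ∃ t : Term O n, ∀ A h R, t.eval A h R = f A h R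

/-- The identity relation. -/
def idOp : Op 0 := fun _ _ _ x y => x = y
/-- The empty relation. -/
def emptyOp : Op 0 := fun _ _ _ _ _ => False
/-- The complement. -/
def complOp : Op 1 := fun _ _ R x y => ¬ R 0 x y
/-- The intersection. -/
def interOp : Op 2 := fun _ _ R x y => R 0 x y ∧ R 1 x y
/-- The composition. -/
def compOp : Op 2 := fun _ _ R x y => ∃ z, R 0 x z ∧ R 1 z y
/-- The converse. -/
def convOp : Op 1 := fun _ _ R x y => R 0 y x

/-- The operations of Tarski's relation algebra. -/
def TRA : Set (Σ k, Op k) :=
  {⟨0, idOp⟩, ⟨0, emptyOp⟩, ⟨1, complOp⟩, ⟨2, interOp⟩, ⟨2, compOp⟩, ⟨1, convOp⟩}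

/-- `f` is inclusion-safe: if `A` is (identified through the injection `e` with) an induced
substructure of the finite structure `B` and `(a, b) ∈ f(A)` then `(a, b) ∈ f(B)`. -/
def Safe {n : ℕ} (f : Op n) : Prop :=
  ∀ (A B : Type) (hA : Finite A) (hB : Finite B) (e : A ↪ B) (R : Fin n → B → B → Prop) (a b : A),
    f A hA (fun i x y => R i (e x) (e y)) a b → f B hB R (e a) (e b)

/-- `f` is safe for not necessarily induced substructures: if `(a, b) ∈ f(A)`, the domain of `A` is
(identified through the injection `e` with) a subset of that of the finite structure `B`, and every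
relation of `A` is contained in the corresponding relation of `B`, then `(a, b) ∈ f(B)`. -/
def WeakSafe {n : ℕ} (f : Op n) : Prop :=
  ∀ (A B : Type) (hA : Finite A) (hB : Finite B) (e : A ↪ B) (P : Fin n → A → A → Prop)
    (R : Fin n → B → B → Prop), (∀ i x y, P i x y → R i (e x) (e y)) →
      ∀ a b, f A hA P a b → f B hB R (e a) (e b)

/-- `f` is safe for not necessarily induced substructures with a strictly smaller domain. -/
def ProperSafe {n : ℕ} (f : Op n) : Prop :=
  ∀ (A B : Type) (hA : Finite A) (hB : Finite B) (e : A ↪ B) (P : Fin n → A → A → Prop)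
    (R : Fin n → B → B → Prop), (∀ i x y, P i x y → R i (e x) (e y)) → (∃ w, ∀ x, e x ≠ w) →
      ∀ a b, f A hA P a b → f B hB R (e a) (e b)

/-- `f` is first-order definable over finite structures, in the variables `0` and `1`. -/
def FODefinable {n : ℕ} (f : Op n) : Prop :=
  ∃ φ : Fml (Fin n), ∀ (A : Type) (h : Finite A) (R : Fin n → A → A → Prop) (v : ℕ → A),
    f A h R (v 0) (v 1) ↔ φ.Sat R v

/-- The inclusion-safe operations that are first-order definable. -/
def SafeFO : Set (Σ k, Op k) := {o | Safe o.2 ∧ FODefinable o.2}

/-- The inclusion-safe operations that are term definable in `TRA`. -/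
def SafeTRA : Set (Σ k, Op k) := {o | Safe o.2 ∧ Definable TRA o.2}

/-- The operations that are safe for not necessarily induced substructures and term definable in
`TRA`. -/
def WeakSafeTRA : Set (Σ k, Op k) := {o | WeakSafe o.2 ∧ Definable TRA o.2}

/-- The inclusion-safe operations that are safe for not necessarily induced substructures with a
strictly smaller domain and term definable in `TRA`. -/
def MaxSafeTRA : Set (Σ k, Op k) := {o | Safe o.2 ∧ ProperSafe o.2 ∧ Definable TRA o.2}

/-- The union. -/
def unionOp : Op 2 := fun _ _ R x y => R 0 x y ∨ R 1 x y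
/-- The universal relation. -/
def topOp : Op 0 := fun _ _ _ _ _ => True

/-- Union, intersection, composition and the universal relation. -/
def Basic : Set (Σ k, Op k) := {⟨2, unionOp⟩, ⟨2, interOp⟩, ⟨2, compOp⟩, ⟨0, topOp⟩}

/-- `C` is closed under composition: it contains every operation defined by a term of `BRA(C)`. -/
def Closed (C : Set (Σ k, Op k)) : Prop := ∀ (n : ℕ) (f : Op n), Definable C f → ⟨n, f⟩ ∈ C

end Pool.Agent.Work.MP_3f6cab_lc.F22
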